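import Pool.Agent.R216.VPD.Lap

/-! A compact set carrying most of a singular measure, on which a second, absolutely continuous
measure is uniformly small at small scales. -/

namespace Pool.Agent.R216.VPD

open MeasureTheory Set Metric Filter Topology
open scoped ENNReal

variable {N : ℕ}

theorem good_set {Ω : Set (E N)} (hΩ : IsOpen Ω) (σ f : Measure (E N)) [IsFiniteMeasure σ]
    [IsFiniteMeasure f] (hσ : σ ⟂ₘ volume) (hf : f ≪ volume) (hσΩ : σ Ωᶜ = 0)
    {ε : ℝ≥0∞} (hε : ε ≠ 0) (hε' : ε ≠ ∞) {ε₀ : ℝ≥0∞} (hε₀ : ε₀ ≠ 0) :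
    ∃ K₀ : Set (E N), IsCompact K₀ ∧ K₀ ⊆ Ω ∧ volume K₀ = 0 ∧ σ K₀ᶜ ≤ ε₀ ∧
      ∃ r₀ : ℝ, 0 < r₀ ∧ ∀ x ∈ K₀, ∀ r, 0 < r → r ≤ r₀ →
        f (closedBall x r) ≤ ε * σ (closedBall x (2 * r)) := by
  have hfσ : f ⟂ₘ σ := (hσ.mono_ac Measure.AbsolutelyContinuous.rfl hf).symm
  have hrn := hfσ.rnDeriv_ae_eq_zero
  have hbes := Besicovitch.ae_tendsto_rnDeriv f σ
  set S : ℕ → Set (E N) := fun n => {x | ∀ r, 0 < r → r ≤ 1 / ((n : ℝ) + 1) →
    f (closedBall x r) ≤ ε * σ (closedBall x r)} with hS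
  have hSmono : Monotone S := by
    intro a b hab x hx r hr hrb
    refine hx r hr (hrb.trans ?_)
    gcongr
  have hfull : ∀ᵐ x ∂σ, x ∈ ⋃ n, S n := by
    filter_upwards [hrn, hbes] with x hx1 hx2
    rw [hx1] at hx2
    have h1 : ∀ᶠ r in 𝓝[>] (0 : ℝ), f (closedBall x r) / σ (closedBall x r) < ε :=
      hx2.eventually_lt_const (by simpa using pos_iff_ne_zero.2 hε)
    rw [eventually_nhdsWithin_iff, Metric.eventually_nhds_iff] at h1
    obtain ⟨δ, hδ, h2⟩ := h1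
    obtain ⟨n, hn⟩ := exists_nat_one_div_lt hδ
    refine mem_iUnion.2 ⟨n, fun r hr hrn => ?_⟩
    have h3 := h2 (y := r) (by
      rw [Real.dist_eq, sub_zero, abs_of_pos hr]; exact lt_of_le_of_lt hrn hn) hr
    exact (ENNReal.div_le_iff_le_mul (Or.inr hε') (Or.inl (measure_ne_top _ _))).1 h3.le
  have hlim : Tendsto (fun n => σ (closure (S n))ᶜ) atTop (𝓝 0) := by
    have h1 : σ (⋂ n, (closure (S n))ᶜ) = 0 := by
      refine measure_mono_null ?_ (ae_iff.1 hfull)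
      intro x hx hx2
      obtain ⟨n, hn⟩ := mem_iUnion.1 hx2
      exact (mem_iInter.1 hx n) (subset_closure hn)
    rw [← h1]
    refine tendsto_measure_iInter_atTop (fun n => isClosed_closure.measurableSet.compl.nullMeasurableSet)
      ?_ ⟨0, measure_ne_top _ _⟩
    intro a b hab
    exact compl_subset_compl.2 (closure_mono (hSmono hab))
  have hε₀2 : 0 < ε₀ / 2 := ENNReal.half_pos hε₀
  obtain ⟨n, hn⟩ := (hlim.eventually_lt_const hε₀2).exists
  obtain ⟨s, hs, hs1, hs2⟩ := hσ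
  have hZm : MeasurableSet (sᶜ ∩ Ω) := hs.compl.inter hΩ.measurableSet
  obtain ⟨K₂, hK₂s, hK₂c, hK₂⟩ := hZm.exists_isCompact_diff_lt (μ := σ) (measure_ne_top _ _)
    hε₀2.ne'
  refine ⟨closure (S n) ∩ K₂, hK₂c.inter_left isClosed_closure, ?_, ?_, ?_, ?_⟩
  · exact fun x hx => (hK₂s hx.2).2
  · exact measure_mono_null (fun x hx => (hK₂s hx.2).1) hs2
  · have h1 : (closure (S n) ∩ K₂)ᶜ ⊆ (closure (S n))ᶜ ∪ ((sᶜ ∩ Ω) \ K₂) ∪ (s ∪ Ωᶜ) := by
      intro x hx
      by_cases h2 : x ∈ closure (S n)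
      · have h3 : x ∉ K₂ := fun h => hx ⟨h2, h⟩
        by_cases h4 : x ∈ sᶜ ∩ Ω
        · exact Or.inl (Or.inr ⟨h4, h3⟩)
        · right
          by_contra h5
          apply h4
          constructor
          · exact fun h => h5 (Or.inl h)
          · by_contra h; exact h5 (Or.inr h)
      · exact Or.inl (Or.inl h2)
    have h0 : σ (s ∪ Ωᶜ) = 0 := measure_union_null hs1 hσΩ
    calc σ (closure (S n) ∩ K₂)ᶜ ≤ σ ((closure (S n))ᶜ ∪ ((sᶜ ∩ Ω) \ K₂) ∪ (s ∪ Ωᶜ)) :=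
          measure_mono h1
      _ ≤ σ (closure (S n))ᶜ + σ ((sᶜ ∩ Ω) \ K₂) + σ (s ∪ Ωᶜ) :=
          (measure_union_le _ _).trans (add_le_add (measure_union_le _ _) le_rfl)
      _ ≤ ε₀ / 2 + ε₀ / 2 + 0 := by
          rw [h0]
          exact add_le_add (add_le_add hn.le hK₂.le) le_rfl
      _ = ε₀ := by rw [add_zero, ENNReal.add_halves]
  · refine ⟨1 / (2 * ((n : ℝ) + 1)), by positivity, ?_⟩
    intro x hx r hr hrr
    obtain ⟨x', hx', hd⟩ := Metric.mem_closure_iff.1 hx.1 (r / 2) (by positivity)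
    have h1 : closedBall x r ⊆ closedBall x' (r + r / 2) := by
      intro y hy
      rw [mem_closedBall] at hy ⊢
      linarith [dist_triangle y x x']
    have h2 : closedBall x' (r + r / 2) ⊆ closedBall x (2 * r) := by
      intro y hy
      rw [mem_closedBall] at hy ⊢
      have := dist_triangle y x' x
      rw [dist_comm x' x] at this
      linarith
    have h3 : r + r / 2 ≤ 1 / ((n : ℝ) + 1) := by
      have h4 : 1 / (2 * ((n : ℝ) + 1)) = (1 / ((n : ℝ) + 1)) / 2 := by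
        field_simp
      rw [h4] at hrr
      linarith
    calc f (closedBall x r) ≤ f (closedBall x' (r + r / 2)) := measure_mono h1
      _ ≤ ε * σ (closedBall x' (r + r / 2)) := hx' _ (by positivity) h3
      _ ≤ ε * σ (closedBall x (2 * r)) := by gcongr

end Pool.Agent.R216.VPD
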