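import Pool.Agent.R216.VPD.Lap

/-! Definitions: test functions, weak solutions, the class `V_+`, good measures. -/

namespace Pool.Agent.R216.VPD

open MeasureTheory Set Metric Filter Topology InnerProductSpace Laplacian
open scoped ContDiff

variable {N : ℕ}

/-- The test functions: smooth functions on the whole space vanishing on the boundary of `Ω`. -/
def IsTest (Ω : Set (E N)) (ζ : E N → ℝ) : Prop :=
  ContDiff ℝ ∞ ζ ∧ ∀ x ∈ frontier Ω, ζ x = 0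

/-- `u ∈ L^1(Ω)` solves `-Δ u = μ` in `Ω`, `u = 0` on the boundary, in the weak sense. -/
def SolvesLinear (Ω : Set (E N)) (μ : Measure (E N)) (u : E N → ℝ) : Prop :=
  IntegrableOn u Ω ∧
    ∀ ζ, IsTest Ω ζ → (-∫ x in Ω, u x * (Δ ζ) x) = ∫ x in Ω, ζ x ∂μ

/-- `u` solves the nonlinear Dirichlet problem `-Δ u + g(u) = μ`, `u = 0` on the boundary. -/
def SolvesNonlinear (g : ℝ → ℝ) (Ω : Set (E N)) (μ : Measure (E N)) (u : E N → ℝ) : Prop :=
  IntegrableOn u Ω ∧ IntegrableOn (fun x => g (u x)) Ω ∧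
    ∀ ζ, IsTest Ω ζ →
      (-∫ x in Ω, u x * (Δ ζ) x) + (∫ x in Ω, g (u x) * ζ x) = ∫ x in Ω, ζ x ∂μ

/-- A nonnegative good measure on `Ω`. -/
def GoodNonneg (g : ℝ → ℝ) (Ω : Set (E N)) (μ : Measure (E N)) : Prop :=
  IsFiniteMeasure μ ∧ μ Ωᶜ = 0 ∧ ∃ u, SolvesNonlinear g Ω μ u

/-- The class `V_+` of nonnegative finite measures on `Ω` whose potential `u` satisfies
`g(u) ∈ L^1(Ω)`. -/
def VPlus (g : ℝ → ℝ) (Ω : Set (E N)) (μ : Measure (E N)) : Prop :=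
  IsFiniteMeasure μ ∧ μ Ωᶜ = 0 ∧
    ∃ u, SolvesLinear Ω μ u ∧ IntegrableOn (fun x => g (u x)) Ω

end Pool.Agent.R216.VPD
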