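import Pool.Agent.R216.VPD.Key
import Pool.Agent.R216.VPD.Defs

/-! Existence of the potential with an upper bound, by Hahn-Banach. -/

namespace Pool.Agent.R216.VPD

open MeasureTheory Set Metric Filter Topology InnerProductSpace Laplacian
open scoped ENNReal

variable {N : ℕ}

/-- the vector space of test functions -/
def testSub (Ω : Set (E N)) : Submodule ℝ (E N → ℝ) where
  carrier := {ζ | IsTest Ω ζ}
  add_mem' := by
    rintro a b ⟨ha, ha0⟩ ⟨hb, hb0⟩
    refine ⟨ha.add hb, fun x hx => ?_⟩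
    simp [ha0 x hx, hb0 x hx]
  zero_mem' := ⟨contDiff_const, fun x _ => rfl⟩
  smul_mem' := by
    rintro c a ⟨ha, ha0⟩
    refine ⟨contDiff_const.smul ha, fun x hx => ?_⟩
    simp [ha0 x hx]

theorem IsTest.two {Ω : Set (E N)} {ζ : E N → ℝ} (h : IsTest Ω ζ) : ContDiff ℝ 2 ζ :=
  h.1.of_le (by norm_cast)

theorem exists_linear {Ω : Set (E N)} {T : ℝ} (hN : 0 < N) (hT0 : 0 < T)
    (hT : ∀ x ∈ Ω, ∀ y ∈ Ω, ‖x - y‖ ^ 2 + 1 ≤ T) (hΩ : IsOpen Ω) (hb : Bornology.IsBounded Ω)
    (ν : Measure (E N)) [IsFiniteMeasure ν] (hν : ν Ωᶜ = 0) :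
    ∃ u, SolvesLinear Ω ν u ∧
      ∀ᵐ x ∂(volume.restrict Ω), 0 ≤ u x ∧ ENNReal.ofReal (cN N * u x) ≤ Pot T ν x := by
  have hc := cN_pos hN
  set m : Measure (E N) := (volume.restrict Ω).withDensity (Pot T ν) with hmdef
  have hPm : Measurable (Pot T ν) := measurable_Pot T ν
  have hPae : ∀ᵐ x ∂(volume.restrict Ω), Pot T ν x < ∞ := ae_restrict_of_ae (Pot_ae_lt_top T ν)
  have hmfin : IsFiniteMeasure m := by
    constructor
    rw [hmdef, withDensity_apply _ MeasurableSet.univ, Measure.restrict_univ]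
    refine (lintegral_mono_set (subset_univ Ω)).trans_lt ?_
    rw [Measure.restrict_univ, lintegral_Pot]
    exact ENNReal.mul_lt_top (measure_lt_top _ _)
      (ENNReal.mul_lt_top om_lt_top ENNReal.ofReal_lt_top)
  have haeΩ : ∀ᵐ x ∂m, x ∈ Ω :=
    (withDensity_absolutelyContinuous _ _).ae_le (ae_restrict_mem hΩ.measurableSet)
  have hνres : ν.restrict Ω = ν := by
    rw [Measure.restrict_eq_self_of_ae_mem]
    rw [ae_iff]; exact hν
  -- boundedness of the Laplacian on `Ω`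
  have hmem : ∀ ζ : testSub Ω, MemLp (fun x => -(Δ (ζ : E N → ℝ)) x) 2 m := by
    intro ζ
    have hcont := lap_cont (IsTest.two ζ.2)
    obtain ⟨C, hC⟩ := (hb.isCompact_closure).exists_bound_of_continuousOn hcont.continuousOn
    refine MemLp.of_bound hcont.neg.aestronglyMeasurable C ?_
    filter_upwards [haeΩ] with x hx
    rw [norm_neg]
    exact hC x (subset_closure hx)
  have hζint : ∀ ζ : testSub Ω, IntegrableOn (ζ : E N → ℝ) Ω ν := by
    intro ζ
    have hcont : Continuous (ζ : E N → ℝ) := (ζ.2 : IsTest Ω ζ).1.continuous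
    obtain ⟨C, hC⟩ := (hb.isCompact_closure).exists_bound_of_continuousOn hcont.continuousOn
    refine Integrable.of_bound hcont.aestronglyMeasurable C ?_
    filter_upwards [ae_restrict_mem hΩ.measurableSet] with x hx
    exact hC x (subset_closure hx)
  let Λ : testSub Ω →ₗ[ℝ] Lp ℝ 2 m :=
    { toFun := fun ζ => (hmem ζ).toLp _
      map_add' := by
        intro a b
        rw [← MemLp.toLp_add]
        refine MemLp.toLp_congr _ _ (Eventually.of_forall fun x => ?_)
        have := (IsTest.two a.2).contDiffAt.laplacian_add (x := x) (IsTest.two b.2).contDiffAt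
        simp only [Submodule.coe_add, Pi.add_apply]
        rw [this]; ring
      map_smul' := by
        intro c a
        rw [RingHom.id_apply, ← MemLp.toLp_const_smul]
        refine MemLp.toLp_congr _ _ (Eventually.of_forall fun x => ?_)
        have := laplacian_smul (x := x) c (IsTest.two a.2).contDiffAt
        simp only [Submodule.coe_smul, Pi.smul_apply]
        rw [this]; simp }
  let ℓ : testSub Ω →ₗ[ℝ] ℝ :=
    { toFun := fun ζ => ∫ x in Ω, (ζ : E N → ℝ) x ∂ν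
      map_add' := by
        intro a b
        simp only [Submodule.coe_add, Pi.add_apply]
        exact integral_add (hζint a) (hζint b)
      map_smul' := by
        intro c a
        simp only [Submodule.coe_smul, Pi.smul_apply, RingHom.id_apply]
        exact integral_smul c _ }
  let p : Lp ℝ 2 m → ℝ := fun ψ => (cN N)⁻¹ * ∫ x, max (ψ x) 0 ∂m
  have hint : ∀ ψ : Lp ℝ 2 m, Integrable (ψ : E N → ℝ) m := fun ψ =>
    (Lp.memLp ψ).integrable (by norm_num)
  have hintp : ∀ ψ : Lp ℝ 2 m, Integrable (fun x => max (ψ x) 0) m := fun ψ =>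
    (hint ψ).pos_part
  have hp_hom : ∀ c : ℝ, 0 < c → ∀ ψ, p (c • ψ) = c * p ψ := by
    intro c hc' ψ
    have h1 : ∫ x, max ((c • ψ : Lp ℝ 2 m) x) 0 ∂m = ∫ x, c * max (ψ x) 0 ∂m := by
      refine integral_congr_ae ?_
      filter_upwards [Lp.coeFn_smul c ψ] with x hx
      rw [hx, Pi.smul_apply, smul_eq_mul, mul_max_of_nonneg _ _ hc'.le, mul_zero]
    simp only [p]
    rw [h1, integral_const_mul]; ring
  have hp_add : ∀ ψ φ, p (ψ + φ) ≤ p ψ + p φ := by
    intro ψ φ
    have h1 : ∫ x, max ((ψ + φ : Lp ℝ 2 m) x) 0 ∂m ≤ ∫ x, (max (ψ x) 0 + max (φ x) 0) ∂m := by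
      refine integral_mono_ae (hintp _) ((hintp _).add (hintp _)) ?_
      filter_upwards [Lp.coeFn_add ψ φ] with x hx
      rw [hx, Pi.add_apply]
      refine max_le (add_le_add (le_max_left _ _) (le_max_left _ _)) ?_
      exact add_nonneg (le_max_right _ _) (le_max_right _ _)
    rw [integral_add (hintp _) (hintp _)] at h1
    simp only [p]
    rw [← mul_add]
    exact mul_le_mul_of_nonneg_left h1 (by positivity)
  have hbound : ∀ ζ : testSub Ω, ℓ ζ ≤ p (Λ ζ) := by
    intro ζ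
    have hk := key_int hT0 hT hΩ hb (IsTest.two ζ.2) (ζ.2 : IsTest Ω ζ).2 ν hν
    have h1 : ENNReal.ofReal (∫ x, cN N * (ζ : E N → ℝ) x ∂ν)
        ≤ ∫⁻ x, ENNReal.ofReal (cN N * (ζ : E N → ℝ) x) ∂ν := ofReal_integral_le _
    have hpos : Integrable (fun x => max (-(Δ (ζ : E N → ℝ)) x) 0) m :=
      ((hmem ζ).integrable (by norm_num)).pos_part
    have h2 : ∫⁻ y in Ω, Pot T ν y * ENNReal.ofReal (-(Δ (ζ : E N → ℝ)) y)
        = ENNReal.ofReal (∫ x, max (-(Δ (ζ : E N → ℝ)) x) 0 ∂m) := by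
      rw [ofReal_integral_eq_lintegral_ofReal hpos (Eventually.of_forall fun x => le_max_right _ _)]
      rw [hmdef, lintegral_withDensity_eq_lintegral_mul _ hPm]
      · refine lintegral_congr fun y => ?_
        rw [Pi.mul_apply, ENNReal.ofReal_max]
        simp
      · have := (lap_cont (IsTest.two ζ.2)).measurable
        exact ENNReal.measurable_ofReal.comp (this.neg.max measurable_const)
    have h3 : ∫ x, cN N * (ζ : E N → ℝ) x ∂ν ≤ ∫ x, max (-(Δ (ζ : E N → ℝ)) x) 0 ∂m := by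
      have h4 := h1.trans (hk.trans h2.le)
      have hnn : 0 ≤ ∫ x, max (-(Δ (ζ : E N → ℝ)) x) 0 ∂m :=
        integral_nonneg fun x => le_max_right _ _
      exact (ENNReal.ofReal_le_ofReal_iff hnn).1 h4
    have h5 : ∫ x, max ((Λ ζ : Lp ℝ 2 m) x) 0 ∂m = ∫ x, max (-(Δ (ζ : E N → ℝ)) x) 0 ∂m := by
      refine integral_congr_ae ?_
      filter_upwards [(hmem ζ).coeFn_toLp] with x hx
      have : (Λ ζ : Lp ℝ 2 m) x = -(Δ (ζ : E N → ℝ)) x := hx
      rw [this]
    have h6 : ℓ ζ = ∫ x, (ζ : E N → ℝ) x ∂ν := by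
      show ∫ x in Ω, (ζ : E N → ℝ) x ∂ν = _
      rw [hνres]
    rw [integral_const_mul] at h3
    simp only [p]
    rw [h5, h6]
    rw [inv_mul_eq_div, le_div_iff₀ hc]
    linarith
  have hp0 : p 0 = 0 := by
    have h := hp_hom 2 two_pos 0
    rw [smul_zero] at h
    linarith
  have hker : LinearMap.ker Λ ≤ LinearMap.ker ℓ := by
    intro ζ hζ
    rw [LinearMap.mem_ker] at hζ ⊢
    have h1 := hbound ζ
    have h2 := hbound (-ζ)
    rw [map_neg, map_neg, hζ, neg_zero, hp0] at h2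
    rw [hζ, hp0] at h1
    linarith
  let f : Lp ℝ 2 m →ₗ.[ℝ] ℝ :=
    ⟨LinearMap.range Λ, (Submodule.liftQ (LinearMap.ker Λ) ℓ hker).comp
      (Λ.quotKerEquivRange.symm : LinearMap.range Λ →ₗ[ℝ] _)⟩
  have hf : ∀ ζ : testSub Ω, f ⟨Λ ζ, LinearMap.mem_range_self Λ ζ⟩ = ℓ ζ := by
    intro ζ
    show (Submodule.liftQ (LinearMap.ker Λ) ℓ hker)
      (Λ.quotKerEquivRange.symm ⟨Λ ζ, LinearMap.mem_range_self Λ ζ⟩) = ℓ ζ
    rw [LinearMap.quotKerEquivRange_symm_apply_image]
    simp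
  obtain ⟨g, hg1, hg2⟩ := exists_extension_of_le_sublinear f p hp_hom hp_add (by
    rintro ⟨ψ, ζ, rfl⟩
    rw [hf ζ]
    exact hbound ζ)
  have hgΛ : ∀ ζ : testSub Ω, g (Λ ζ) = ℓ ζ := by
    intro ζ
    have := hg1 ⟨Λ ζ, LinearMap.mem_range_self Λ ζ⟩
    rw [hf ζ] at this
    exact this
  -- continuity
  set C1 : ℝ := (cN N)⁻¹ * (m univ).toReal ^ ((1 : ℝ) / 2) with hC1
  have habs : ∀ ψ : Lp ℝ 2 m, (cN N)⁻¹ * ∫ x, |ψ x| ∂m ≤ C1 * ‖ψ‖ := by
    intro ψ
    have h1 := eLpNorm_le_eLpNorm_mul_rpow_measure_univ (μ := m) (p := 1) (q := 2)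
      (by norm_num) (Lp.memLp ψ).1
    have h2 : ∫ x, |ψ x| ∂m = (eLpNorm ψ 1 m).toReal := by
      rw [eLpNorm_one_eq_lintegral_enorm, ← ofReal_integral_norm_eq_lintegral_enorm (hint ψ),
        ENNReal.toReal_ofReal (integral_nonneg fun x => norm_nonneg _)]
      rfl
    have h3 : (eLpNorm ψ 1 m).toReal ≤ ‖ψ‖ * (m univ).toReal ^ ((1 : ℝ) / 2) := by
      have h4 : eLpNorm ψ 2 m * m univ ^ (1 / (1 : ℝ≥0∞).toReal - 1 / (2 : ℝ≥0∞).toReal) ≠ ∞ := by
        refine ENNReal.mul_ne_top (Lp.memLp ψ).2.ne ?_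
        refine ENNReal.rpow_ne_top_of_nonneg (by norm_num) (measure_ne_top _ _)
      refine (ENNReal.toReal_mono h4 h1).trans ?_
      rw [ENNReal.toReal_mul, Lp.norm_def, ← ENNReal.toReal_rpow]
      norm_num
    rw [h2, hC1]
    calc (cN N)⁻¹ * (eLpNorm ψ 1 m).toReal
        ≤ (cN N)⁻¹ * (‖ψ‖ * (m univ).toReal ^ ((1 : ℝ) / 2)) :=
          mul_le_mul_of_nonneg_left h3 (by positivity)
      _ = _ := by ring
  have hple : ∀ ψ : Lp ℝ 2 m, p ψ ≤ C1 * ‖ψ‖ := by
    intro ψ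
    refine le_trans ?_ (habs ψ)
    refine mul_le_mul_of_nonneg_left ?_ (by positivity)
    exact integral_mono (hintp ψ) (hint ψ).abs fun x => max_le (le_abs_self _) (abs_nonneg _)
  have hgb : ∀ ψ : Lp ℝ 2 m, ‖g ψ‖ ≤ C1 * ‖ψ‖ := by
    intro ψ
    rw [Real.norm_eq_abs, abs_le]
    constructor
    · have h1 := (hg2 (-ψ)).trans (hple (-ψ))
      rw [map_neg, norm_neg] at h1
      linarith
    · exact (hg2 ψ).trans (hple ψ)
  let G : Lp ℝ 2 m →L[ℝ] ℝ := g.mkContinuous C1 hgb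
  let v : Lp ℝ 2 m := (toDual ℝ (Lp ℝ 2 m)).symm G
  have hv : ∀ ψ : Lp ℝ 2 m, g ψ = ∫ x, v x * ψ x ∂m := by
    intro ψ
    have h1 : inner ℝ v ψ = G ψ := toDual_symm_apply
    have h2 : G ψ = g ψ := rfl
    rw [← h2, ← h1, L2.inner_def]
    refine integral_congr_ae (Eventually.of_forall fun x => ?_)
    simp [mul_comm]
  have hvint : Integrable (v : E N → ℝ) m := hint v
  have hind : ∀ A : Set (E N), ∀ hA : MeasurableSet A,
      g (indicatorConstLp 2 hA (measure_ne_top m A) (1 : ℝ)) = ∫ x in A, v x ∂m := by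
    intro A hA
    rw [hv, ← integral_indicator hA]
    refine integral_congr_ae ?_
    filter_upwards [indicatorConstLp_coeFn (p := 2) (hs := hA) (hμs := measure_ne_top m A)
      (c := (1 : ℝ))] with x hx
    rw [hx]
    by_cases h : x ∈ A
    · rw [indicator_of_mem h, indicator_of_mem h, mul_one]
    · rw [indicator_of_notMem h, indicator_of_notMem h, mul_zero]
  have hv0 : 0 ≤ᵐ[m] (v : E N → ℝ) := by
    refine ae_nonneg_of_forall_setIntegral_nonneg hvint fun A hA _ => ?_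
    rw [← hind A hA]
    have h1 := hg2 (-(indicatorConstLp 2 hA (measure_ne_top m A) (1 : ℝ)))
    have h2 : p (-(indicatorConstLp 2 hA (measure_ne_top m A) (1 : ℝ))) = 0 := by
      simp only [p]
      have h3 : ∫ x, max ((-(indicatorConstLp 2 hA (measure_ne_top m A) (1 : ℝ)) : Lp ℝ 2 m) x) 0 ∂m
          = ∫ x, (0 : ℝ) ∂m := by
        refine integral_congr_ae ?_
        filter_upwards [indicatorConstLp_coeFn (p := 2) (hs := hA) (hμs := measure_ne_top m A)
          (c := (1 : ℝ)), Lp.coeFn_neg (indicatorConstLp 2 hA (measure_ne_top m A) (1 : ℝ))]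
          with x hx hx2
        rw [hx2, Pi.neg_apply, hx]
        by_cases h : x ∈ A
        · rw [indicator_of_mem h]; norm_num
        · rw [indicator_of_notMem h]; norm_num
      rw [h3]; simp
    rw [h2, map_neg] at h1
    linarith
  have hv1 : (v : E N → ℝ) ≤ᵐ[m] fun _ => (cN N)⁻¹ := by
    refine ae_le_of_forall_setIntegral_le hvint (integrable_const _) fun A hA _ => ?_
    rw [← hind A hA]
    refine (hg2 _).trans ?_
    simp only [p]
    have h3 : ∫ x, max ((indicatorConstLp 2 hA (measure_ne_top m A) (1 : ℝ) : Lp ℝ 2 m) x) 0 ∂m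
        = ∫ x, A.indicator (fun _ => (1 : ℝ)) x ∂m := by
      refine integral_congr_ae ?_
      filter_upwards [indicatorConstLp_coeFn (p := 2) (hs := hA) (hμs := measure_ne_top m A)
        (c := (1 : ℝ))] with x hx
      rw [hx]
      by_cases h : x ∈ A
      · rw [indicator_of_mem h]; norm_num
      · rw [indicator_of_notMem h]; norm_num
    rw [h3, integral_indicator hA]
    simp [mul_comm]
  refine ⟨fun x => (Pot T ν x).toReal * v x, ⟨?_, ?_⟩, ?_⟩
  · have h1 := (integrable_withDensity_iff_integrable_smul' hPm hPae).1 hvint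
    exact h1
  · intro ζ hζ
    have h1 := hgΛ ⟨ζ, hζ⟩
    have h2 : ℓ ⟨ζ, hζ⟩ = ∫ x in Ω, ζ x ∂ν := rfl
    rw [← h2, ← h1, hv]
    have h3 : ∫ x, v x * (Λ ⟨ζ, hζ⟩ : Lp ℝ 2 m) x ∂m = ∫ x, v x * (-(Δ ζ) x) ∂m := by
      refine integral_congr_ae ?_
      filter_upwards [(hmem ⟨ζ, hζ⟩).coeFn_toLp] with x hx
      have : (Λ ⟨ζ, hζ⟩ : Lp ℝ 2 m) x = -(Δ ζ) x := hx
      rw [this]
    have h4 := integral_withDensity_eq_integral_toReal_smul hPm hPae
      (fun x => v x * (-(Δ ζ) x))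
    rw [h3]
    refine Eq.trans ?_ h4.symm
    rw [← integral_neg]
    refine integral_congr_ae (Eventually.of_forall fun x => ?_)
    simp only [smul_eq_mul]
    ring
  · have h1 := (ae_withDensity_iff (μ := volume.restrict Ω) hPm).1 hv0
    have h2 := (ae_withDensity_iff (μ := volume.restrict Ω) hPm).1 hv1
    filter_upwards [h1, h2, hPae] with x hx1 hx2 hx3
    by_cases h0 : Pot T ν x = 0
    · simp [h0]
    · have a1 : 0 ≤ v x := hx1 h0
      have a2 : v x ≤ (cN N)⁻¹ := hx2 h0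
      refine ⟨mul_nonneg ENNReal.toReal_nonneg a1, ?_⟩
      have a3 : cN N * ((Pot T ν x).toReal * v x) ≤ (Pot T ν x).toReal := by
        have : cN N * v x ≤ 1 := by
          rw [← mul_inv_cancel₀ hc.ne']
          exact mul_le_mul_of_nonneg_left a2 hc.le
        nlinarith [ENNReal.toReal_nonneg (a := Pot T ν x)]
      exact (ENNReal.ofReal_le_ofReal a3).trans ENNReal.ofReal_toReal_le

end Pool.Agent.R216.VPD
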