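import Pool.Agent.R216.VPD.Lap

/-! The regularised fundamental solution. -/

namespace Pool.Agent.R216.VPD

open MeasureTheory Set Metric Filter Topology InnerProductSpace Laplacian
open scoped ContDiff

variable {N : ℕ}

/-- `k s = ∫_s^T t^(-N/2) dt`. -/
noncomputable def k (N : ℕ) (T s : ℝ) : ℝ := ∫ t in s..T, t ^ (-(N : ℝ) / 2)

theorem hasDerivAt_k {T s : ℝ} (hT : 0 < T) (hs : 0 < s) :
    HasDerivAt (k N T) (-(s ^ (-(N : ℝ) / 2))) s := by
  unfold k
  have hc : ContinuousOn (fun t : ℝ => t ^ (-(N : ℝ) / 2)) (Ioi 0) := fun t ht =>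
    (Real.continuousAt_rpow_const t _ (Or.inl (ne_of_gt ht))).continuousWithinAt
  have hsub : uIcc s T ⊆ Ioi 0 := by
    intro t ht
    rw [uIcc, mem_Icc] at ht
    exact lt_of_lt_of_le (lt_min hs hT) ht.1
  apply intervalIntegral.integral_hasDerivAt_left
  · exact (hc.mono hsub).intervalIntegrable
  · exact hc.stronglyMeasurableAtFilter isOpen_Ioi s hs
  · exact hc.continuousAt (isOpen_Ioi.mem_nhds hs)

theorem contDiffOn_k {T : ℝ} (hT : 0 < T) : ContDiffOn ℝ ∞ (k N T) (Ioi 0) := by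
  have h : ContDiffOn ℝ (∞ + 1) (k N T) (Ioi 0) := by
    rw [contDiffOn_succ_iff_deriv_of_isOpen isOpen_Ioi]
    refine ⟨fun s hs => (hasDerivAt_k hT hs).differentiableAt.differentiableWithinAt, ?_, ?_⟩
    · simp
    · have h2 : ContDiffOn ℝ ∞ (fun s : ℝ => -(s ^ (-(N : ℝ) / 2))) (Ioi 0) := fun s hs =>
        ((Real.contDiffAt_rpow_const_of_ne (ne_of_gt hs)).neg).contDiffWithinAt
      exact h2.congr fun s hs => (hasDerivAt_k hT hs).deriv
  simpa using h

/-- `q y = |x - y|^2 + δ`. -/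
noncomputable def q (x : E N) (d : ℝ) (y : E N) : ℝ := ‖x - y‖ ^ 2 + d

theorem contDiff_q (x : E N) (d : ℝ) : ContDiff ℝ ∞ (q x d) := by
  unfold q
  exact ((contDiff_const.sub contDiff_id).norm_sq ℝ).add contDiff_const

theorem q_pos (x : E N) {d : ℝ} (hd : 0 < d) (y : E N) : 0 < q x d y := by
  unfold q; positivity

theorem D_q (x : E N) (d : ℝ) (i : Fin N) :
    D i (q x d) = fun y => -2 * inner ℝ (x - y) (bv i) := by
  funext y
  unfold D q
  have h1 : HasFDerivAt (fun y : E N => x - y) (-(ContinuousLinearMap.id ℝ (E N))) y :=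
    (hasFDerivAt_id y).const_sub x
  have h2 := (h1.norm_sq).add_const d
  rw [h2.fderiv]
  simp [inner_sub_left]
  ring

theorem DD_q (x : E N) (d : ℝ) (i : Fin N) (y : E N) : D i (D i (q x d)) y = 2 := by
  rw [D_q]
  unfold D
  have h1 : HasFDerivAt (fun y : E N => x - y) (-(ContinuousLinearMap.id ℝ (E N))) y :=
    (hasFDerivAt_id y).const_sub x
  have h2 : HasFDerivAt (fun y : E N => -2 * inner ℝ (x - y) (bv i))
      ((-2 : ℝ) • ((innerSL ℝ (bv i)).comp (-(ContinuousLinearMap.id ℝ (E N))))) y := by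
    have h3 : (fun y : E N => -2 * inner ℝ (x - y) (bv i))
        = fun y => (-2 : ℝ) • (innerSL ℝ (bv i)) (x - y) := by
      funext y
      simp only [innerSL_apply_apply, smul_eq_mul]
      rw [real_inner_comm]
    rw [h3]
    exact (((innerSL ℝ (bv i)).hasFDerivAt).comp y h1).const_smul (-2 : ℝ)
  rw [h2.fderiv]
  simp [bv]

/-- the regularised kernel as a function of `y` -/
noncomputable def F (T : ℝ) (x : E N) (d : ℝ) (y : E N) : ℝ := k N T (q x d y)

theorem contDiff_F {T : ℝ} (hT : 0 < T) (x : E N) {d : ℝ} (hd : 0 < d) :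
    ContDiff ℝ ∞ (F T x d) := by
  unfold F
  rw [contDiff_iff_contDiffAt]
  intro y
  exact ContDiffAt.comp y
    ((contDiffOn_k hT).contDiffAt (isOpen_Ioi.mem_nhds (q_pos x hd y))) (contDiff_q x d).contDiffAt

theorem D_F {T : ℝ} (hT : 0 < T) (x : E N) {d : ℝ} (hd : 0 < d) (i : Fin N) :
    D i (F T x d) = fun y => 2 * (q x d y) ^ (-(N : ℝ) / 2) * inner ℝ (x - y) (bv i) := by
  funext y
  have h1 : HasFDerivAt (q x d) (fderiv ℝ (q x d) y) y :=
    ((contDiff_q x d).differentiable (by norm_num) y).hasFDerivAt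
  have h2 := (hasDerivAt_k (N := N) hT (q_pos x hd y)).comp_hasFDerivAt y h1
  have h3 : fderiv ℝ (F T x d) y = -(q x d y) ^ (-(N : ℝ) / 2) • fderiv ℝ (q x d) y := h2.fderiv
  unfold D
  rw [h3]
  have h4 := congrFun (D_q x d i) y
  unfold D at h4
  simp only [ContinuousLinearMap.smul_apply, smul_eq_mul, h4, neg_smul, ContinuousLinearMap.neg_apply]
  ring

theorem DD_F {T : ℝ} (hT : 0 < T) (x : E N) {d : ℝ} (hd : 0 < d) (i : Fin N) (y : E N) :
    D i (D i (F T x d)) y = 2 * N * (q x d y) ^ (-(N : ℝ) / 2 - 1) * (inner ℝ (x - y) (bv i)) ^ 2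
      - 2 * (q x d y) ^ (-(N : ℝ) / 2) := by
  rw [D_F hT x hd i]
  have hq := q_pos x hd y
  have h1 : HasFDerivAt (q x d) (fderiv ℝ (q x d) y) y :=
    ((contDiff_q x d).differentiable (by norm_num) y).hasFDerivAt
  have h2 : HasFDerivAt (fun y => (q x d y) ^ (-(N : ℝ) / 2))
      ((-(N : ℝ) / 2 * (q x d y) ^ (-(N : ℝ) / 2 - 1)) • fderiv ℝ (q x d) y) y := by
    have h := (Real.hasDerivAt_rpow_const (x := q x d y) (p := -(N : ℝ) / 2)
      (Or.inl hq.ne')).comp_hasFDerivAt y h1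
    exact h
  have h3 : HasFDerivAt (fun y : E N => inner ℝ (x - y) (bv i))
      (((innerSL ℝ (bv i)).comp (-(ContinuousLinearMap.id ℝ (E N))))) y := by
    have h4 : (fun y : E N => inner ℝ (x - y) (bv i))
        = fun y => (innerSL ℝ (bv i)) (x - y) := by
      funext y
      simp only [innerSL_apply_apply]
      rw [real_inner_comm]
    rw [h4]
    exact ((innerSL ℝ (bv i)).hasFDerivAt).comp y ((hasFDerivAt_id y).const_sub x)
  have h5 := (h2.const_mul 2).mul h3
  unfold D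
  have h6 : (fun y => 2 * (q x d y) ^ (-(N : ℝ) / 2) * inner ℝ (x - y) (bv i))
    = (fun y => 2 * (q x d y) ^ (-(N : ℝ) / 2)) * (fun y => inner ℝ (x - y) (bv i)) := by
    funext y; simp
  rw [h6, h5.fderiv]
  have h4 := congrFun (D_q x d i) y
  unfold D at h4
  simp only [ContinuousLinearMap.add_apply, ContinuousLinearMap.smul_apply, smul_eq_mul, h4,
    ContinuousLinearMap.comp_apply, ContinuousLinearMap.neg_apply, ContinuousLinearMap.id_apply,
    innerSL_apply_apply, inner_neg_right]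
  have h7 : inner ℝ (bv i : E N) (bv i) = (1 : ℝ) := by
    simp [bv]
  rw [h7]
  ring

theorem sum_inner_sq (z : E N) : ∑ i, (inner ℝ z (bv i)) ^ 2 = ‖z‖ ^ 2 := by
  have h : ∀ i, inner ℝ z (bv i : E N) = z i := by
    intro i
    simp [bv, EuclideanSpace.inner_single_right]
  simp only [h]
  rw [EuclideanSpace.norm_sq_eq]
  simp

/-- minus the Laplacian of the regularised kernel -/
noncomputable def Kd (N : ℕ) (d : ℝ) (z : E N) : ℝ :=
  2 * N * d * (‖z‖ ^ 2 + d) ^ (-(N : ℝ) / 2 - 1)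

theorem lap_F {T : ℝ} (hT : 0 < T) (x : E N) {d : ℝ} (hd : 0 < d) (y : E N) :
    ∑ i, D i (D i (F T x d)) y = - Kd N d (x - y) := by
  simp only [DD_F hT x hd]
  rw [Finset.sum_sub_distrib, ← Finset.mul_sum, sum_inner_sq]
  have hq := q_pos x hd y
  have h1 : (q x d y) ^ (-(N : ℝ) / 2) = (q x d y) ^ (-(N : ℝ) / 2 - 1) * q x d y := by
    rw [← Real.rpow_add_one hq.ne']
    ring_nf
  simp only [Finset.sum_const, Finset.card_univ, Fintype.card_fin, nsmul_eq_mul]
  rw [h1]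
  unfold Kd
  have h2 : q x d y = ‖x - y‖ ^ 2 + d := rfl
  rw [← h2]
  have h3 : ‖x - y‖ ^ 2 = q x d y - d := by rw [h2]; ring
  rw [h3]
  ring

end Pool.Agent.R216.VPD
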