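import Pool.Agent.R216.VPD.Ker

/-! Approximate identity and integration by parts. -/

namespace Pool.Agent.R216.VPD

open MeasureTheory Set Metric Filter Topology Module
open scoped ContDiff

variable {N : ℕ}

theorem Kd_nonneg {d : ℝ} (hd : 0 ≤ d) (z : E N) : 0 ≤ Kd N d z := by
  unfold Kd; positivity

theorem Kd_even (d : ℝ) (z : E N) : Kd N d (-z) = Kd N d z := by
  unfold Kd; rw [norm_neg]

theorem continuous_Kd {d : ℝ} (hd : 0 < d) : Continuous (Kd N d) := by
  unfold Kd
  refine continuous_const.mul ?_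
  refine Continuous.rpow_const (by fun_prop) fun z => Or.inl ?_
  positivity

theorem Kd_le {d : ℝ} (hd : 0 < d) (z : E N) : Kd N d z ≤ 2 * N * d * d ^ (-(N : ℝ) / 2 - 1) := by
  unfold Kd
  have h := Real.rpow_le_rpow_of_nonpos (z := -(N : ℝ) / 2 - 1) hd
    (show d ≤ ‖z‖ ^ 2 + d by nlinarith [norm_nonneg z]) (by
      have : (0 : ℝ) ≤ N := Nat.cast_nonneg N
      linarith)
  exact mul_le_mul_of_nonneg_left h (by positivity)

theorem integrable_Kd_one : Integrable (Kd N 1) := by
  have h := integrable_rpow_neg_one_add_norm_sq (E := E N) (μ := volume) (r := (N : ℝ) + 2)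
    (by simp)
  have h2 : Kd N 1 = fun z => (2 * N) * ((1 : ℝ) + ‖z‖ ^ 2) ^ (-((N : ℝ) + 2) / 2) := by
    funext z
    unfold Kd
    rw [add_comm]
    congr 1
    · ring
    · congr 1; ring
  rw [h2]
  exact h.const_mul _

/-- total mass -/
noncomputable def cN (N : ℕ) : ℝ := ∫ z : E N, Kd N 1 z

theorem cN_pos (hN : 0 < N) : 0 < cN N := by
  unfold cN
  rw [integral_pos_iff_support_of_nonneg (fun z => Kd_nonneg zero_le_one z) integrable_Kd_one]
  have : Function.support (Kd N 1) = univ := by
    ext z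
    simp only [Function.mem_support, mem_univ, iff_true]
    unfold Kd
    have : (0 : ℝ) < N := by exact_mod_cast hN
    positivity
  rw [this]
  exact isOpen_univ.measure_pos volume univ_nonempty

theorem Kd_scale {δ : ℝ} (hδ : 0 < δ) (z : E N) :
    Kd N (δ ^ 2) (δ • z) = (δ ^ N)⁻¹ * Kd N 1 z := by
  unfold Kd
  rw [norm_smul, Real.norm_of_nonneg hδ.le]
  have h1 : (δ * ‖z‖) ^ 2 + δ ^ 2 = δ ^ 2 * (‖z‖ ^ 2 + 1) := by ring
  rw [h1, Real.mul_rpow (by positivity) (by positivity)]
  have h2 : (δ ^ 2) ^ (-(N : ℝ) / 2 - 1) = (δ ^ N)⁻¹ * (δ ^ 2)⁻¹ := by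
    rw [← Real.rpow_natCast δ 2, ← Real.rpow_mul hδ.le, ← Real.rpow_natCast δ N,
      ← Real.rpow_neg hδ.le, ← Real.rpow_neg hδ.le, ← Real.rpow_add hδ]
    congr 1
    push_cast
    ring
  rw [h2]
  field_simp

theorem conv_eq {δ : ℝ} (hδ : 0 < δ) (η : E N → ℝ) (x : E N) :
    ∫ y, η y * Kd N (δ ^ 2) (x - y) = ∫ z, η (x - δ • z) * Kd N 1 z := by
  have h1 : ∫ y, η y * Kd N (δ ^ 2) (x - y) = ∫ z, η (x - z) * Kd N (δ ^ 2) z := by
    have := integral_sub_left_eq_self (μ := (volume : Measure (E N)))
      (fun z => η (x - z) * Kd N (δ ^ 2) z) x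
    rw [← this]
    simp
  have h2 := Measure.integral_comp_smul (volume : Measure (E N))
    (fun z => η (x - z) * Kd N (δ ^ 2) z) δ
  rw [h1]
  simp only [finrank_euclideanSpace, Fintype.card_fin, smul_eq_mul] at h2
  have h3 : 0 < δ ^ N := by positivity
  rw [abs_of_pos (by positivity)] at h2
  have h4 : ∫ z, η (x - z) * Kd N (δ ^ 2) z
      = δ ^ N * ∫ z, η (x - δ • z) * Kd N (δ ^ 2) (δ • z) := by
    rw [h2]; field_simp
  rw [h4, ← integral_const_mul]
  congr 1
  funext z
  rw [Kd_scale hδ]
  field_simp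

theorem tendsto_conv {η : E N → ℝ} {C : ℝ} (hb : ∀ y, |η y| ≤ C) (hm : Measurable η) {x : E N}
    (hc : ContinuousAt η x) {δ : ℕ → ℝ} (hδ : ∀ n, 0 < δ n) (hδ0 : Tendsto δ atTop (𝓝 0)) :
    Tendsto (fun n => ∫ y, η y * Kd N (δ n ^ 2) (x - y)) atTop (𝓝 (cN N * η x)) := by
  simp only [conv_eq (hδ _)]
  have h1 : cN N * η x = ∫ z, η x * Kd N 1 z := by
    rw [integral_const_mul]; unfold cN; ring
  rw [h1]
  refine tendsto_integral_of_dominated_convergence (fun z => C * Kd N 1 z) ?_ ?_ ?_ ?_
  · intro n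
    refine AEStronglyMeasurable.mul ?_ (continuous_Kd one_pos).aestronglyMeasurable
    refine Measurable.aestronglyMeasurable ?_
    exact hm.comp (by fun_prop)
  · exact integrable_Kd_one.const_mul C
  · intro n
    refine Eventually.of_forall fun z => ?_
    rw [Real.norm_eq_abs, abs_mul, abs_of_nonneg (Kd_nonneg zero_le_one z)]
    exact mul_le_mul_of_nonneg_right (hb _) (Kd_nonneg zero_le_one z)
  · refine Eventually.of_forall fun z => ?_
    refine Tendsto.mul_const _ ?_
    refine hc.tendsto.comp ?_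
    have h2 : Tendsto (fun n => x - δ n • z) atTop (𝓝 (x - (0 : ℝ) • z)) :=
      tendsto_const_nhds.sub (hδ0.smul_const z)
    simpa using h2

/-- integration by parts with the Laplacian -/
theorem ibp {f η : E N → ℝ} (hf : ContDiff ℝ 2 f) (hη : ContDiff ℝ 2 η) (hc : HasCompactSupport η) :
    ∫ y, f y * ∑ i, D i (D i η) y = ∫ y, η y * ∑ i, D i (D i f) y := by
  have hf0 : Continuous f := hf.continuous
  have hη0 : Continuous η := hη.continuous
  have h1f : ∀ i, ContDiff ℝ 1 (D i f) := fun i => contDiff_D (n := 1) (by norm_num; exact hf) i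
  have h1η : ∀ i, ContDiff ℝ 1 (D i η) := fun i => contDiff_D (n := 1) (by norm_num; exact hη) i
  have h2f : ∀ i, Continuous (D i (D i f)) := fun i =>
    (contDiff_D (n := 0) (by norm_num; exact h1f i) i).continuous
  have h2η : ∀ i, Continuous (D i (D i η)) := fun i =>
    (contDiff_D (n := 0) (by norm_num; exact h1η i) i).continuous
  have c1 : ∀ i, HasCompactSupport (D i η) := fun i => by
    unfold D
    exact hc.fderiv_apply ℝ _
  have c2 : ∀ i, HasCompactSupport (D i (D i η)) := fun i => by
    have := (c1 i).fderiv_apply ℝ (bv i)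
    exact this
  have key : ∀ i, ∫ y, f y * D i (D i η) y = ∫ y, η y * D i (D i f) y := by
    intro i
    have s1 : ∫ y, f y * fderiv ℝ (D i η) y (bv i) = - ∫ y, fderiv ℝ f y (bv i) * D i η y := by
      apply integral_mul_fderiv_eq_neg_fderiv_mul_of_integrable
      · exact (((h1f i).continuous).mul (h1η i).continuous).integrable_of_hasCompactSupport
          ((c1 i).mul_left)
      · exact (hf0.mul (h2η i)).integrable_of_hasCompactSupport ((c2 i).mul_left)
      · exact (hf0.mul (h1η i).continuous).integrable_of_hasCompactSupport ((c1 i).mul_left)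
      · exact fun x _ => hf.differentiable (by norm_num) x
      · exact fun x _ => (h1η i).differentiable (by norm_num) x
    have s2 : ∫ y, D i f y * fderiv ℝ η y (bv i) = - ∫ y, fderiv ℝ (D i f) y (bv i) * η y := by
      apply integral_mul_fderiv_eq_neg_fderiv_mul_of_integrable
      · exact ((h2f i).mul hη0).integrable_of_hasCompactSupport (hc.mul_left)
      · exact (((h1f i).continuous).mul (h1η i).continuous).integrable_of_hasCompactSupport
          ((c1 i).mul_left)
      · exact (((h1f i).continuous).mul hη0).integrable_of_hasCompactSupport (hc.mul_left)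
      · exact fun x _ => (h1f i).differentiable (by norm_num) x
      · exact fun x _ => hη.differentiable (by norm_num) x
    have s3 : ∫ y, f y * D i (D i η) y = ∫ y, fderiv ℝ (D i f) y (bv i) * η y := by
      have : ∫ y, f y * D i (D i η) y = - ∫ y, D i f y * fderiv ℝ η y (bv i) := s1
      rw [this, s2, neg_neg]
    rw [s3]
    congr 1
    funext y
    exact mul_comm _ _
  simp only [Finset.mul_sum]
  rw [integral_finsetSum, integral_finsetSum]
  · exact Finset.sum_congr rfl fun i _ => key i
  · intro i _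
    exact (hη0.mul (h2f i)).integrable_of_hasCompactSupport (hc.mul_right)
  · intro i _
    exact (hf0.mul (h2η i)).integrable_of_hasCompactSupport ((c2 i).mul_left)

end Pool.Agent.R216.VPD
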