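import Pool.Agent.R216.VPD.Pot
import Pool.Agent.R216.VPD.Rep

/-! The key inequality: a test function is dominated by the potential of the positive part of
minus its Laplacian. -/

namespace Pool.Agent.R216.VPD

open MeasureTheory Set Metric Filter Topology InnerProductSpace Laplacian
open scoped ENNReal

variable {N : ℕ}

theorem k_eq {T s : ℝ} (hs : 0 < s) (hsT : s ≤ T) : ENNReal.ofReal (k N T s) = Ph N T s := by
  unfold k Ph w
  rw [intervalIntegral.integral_of_le hsT, integral_Ioc_eq_integral_Ioo]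
  have hc : ContinuousOn (fun t : ℝ => t ^ (-(N : ℝ) / 2)) (Icc s T) := fun t ht =>
    (Real.continuousAt_rpow_const t _ (Or.inl (ne_of_gt (lt_of_lt_of_le hs ht.1)))).continuousWithinAt
  have hi : IntegrableOn (fun t : ℝ => t ^ (-(N : ℝ) / 2)) (Ioo s T) :=
    (hc.integrableOn_compact isCompact_Icc).mono_set Ioo_subset_Icc_self
  rw [ofReal_integral_eq_lintegral_ofReal hi]
  filter_upwards [ae_restrict_mem measurableSet_Ioo] with t ht
  exact Real.rpow_nonneg (hs.trans ht.1).le _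

theorem k_nonneg {T s : ℝ} (hs : 0 < s) (hsT : s ≤ T) : 0 ≤ k N T s := by
  unfold k
  refine intervalIntegral.integral_nonneg hsT fun t ht => ?_
  exact Real.rpow_nonneg (hs.le.trans ht.1) _

theorem ofReal_integral_le {α : Type*} [MeasurableSpace α] {m : Measure α} (f : α → ℝ) :
    ENNReal.ofReal (∫ x, f x ∂m) ≤ ∫⁻ x, ENNReal.ofReal (f x) ∂m := by
  by_cases hf : Integrable f m
  · rw [integral_eq_lintegral_pos_part_sub_lintegral_neg_part hf]
    refine (ENNReal.ofReal_le_ofReal (sub_le_self _ ENNReal.toReal_nonneg)).trans ?_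
    exact ENNReal.ofReal_toReal_le
  · rw [integral_undef hf]; simp

/-- domination for compactly supported functions -/
theorem key_pt {Ω : Set (E N)} {T : ℝ} (hT0 : 0 < T)
    (hT : ∀ x ∈ Ω, ∀ y ∈ Ω, ‖x - y‖ ^ 2 + 1 ≤ T) (hΩ : MeasurableSet Ω) {η : E N → ℝ}
    (hη : ContDiff ℝ 2 η) (hc : HasCompactSupport η) (hs : tsupport η ⊆ Ω) {h : E N → ℝ}
    (hh : ∀ y ∈ Ω, - (∑ i, D i (D i η) y) ≤ h y) {x : E N} (hx : x ∈ Ω) :
    ENNReal.ofReal (cN N * η x)
      ≤ ∫⁻ y in Ω, Ph N T (‖x - y‖ ^ 2) * ENNReal.ofReal (h y) := by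
  set δ : ℕ → ℝ := fun n => 1 / ((n : ℝ) + 1) with hδdef
  have hδ : ∀ n, 0 < δ n := fun n => by rw [hδdef]; positivity
  have hδ0 : Tendsto δ atTop (𝓝 0) := tendsto_one_div_add_atTop_nhds_zero_nat
  have hδ1 : ∀ n, δ n ≤ 1 := fun n => by
    rw [hδdef]
    simp only
    rw [div_le_one (by positivity)]
    have : (0 : ℝ) ≤ n := Nat.cast_nonneg n
    linarith
  obtain ⟨C, hC⟩ := hη.continuous.bounded_above_of_compact_support hc
  have hlim := tendsto_conv (C := C) (x := x) hC hη.continuous.measurable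
    hη.continuous.continuousAt hδ hδ0
  refine le_of_tendsto ((ENNReal.continuous_ofReal.tendsto _).comp hlim)
    (Eventually.of_forall fun n => ?_)
  simp only [Function.comp]
  have hd : 0 < δ n ^ 2 := by have := hδ n; positivity
  have hd1 : δ n ^ 2 ≤ 1 := by nlinarith [hδ n, hδ1 n]
  have h1 := ibp (contDiff_F hT0 x hd |>.of_le (by norm_cast)) hη hc
  have h2 : ∫ y, η y * Kd N (δ n ^ 2) (x - y)
      = ∫ y, F T x (δ n ^ 2) y * (- ∑ i, D i (D i η) y) := by
    have h3 : ∀ y, η y * Kd N (δ n ^ 2) (x - y)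
        = - (η y * ∑ i, D i (D i (F T x (δ n ^ 2))) y) := by
      intro y
      rw [lap_F hT0 x hd]; ring
    simp only [h3, integral_neg, ← h1, mul_neg]
  rw [h2]
  have hzero : ∀ y, y ∉ Ω → ∑ i, D i (D i η) y = 0 := by
    intro y hy
    have hy2 : y ∉ tsupport η := fun h => hy (hs h)
    have h0 : η =ᶠ[𝓝 y] fun _ => 0 := notMem_tsupport_iff_eventuallyEq.1 hy2
    refine Finset.sum_eq_zero fun i _ => ?_
    have h4 := D_congr_nhds h0 i
    have h5 : D i (fun _ : E N => (0 : ℝ)) = fun _ => 0 := by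
      funext z; unfold D; simp
    rw [h5] at h4
    rw [D_congr h4 i, h5]
  have h6 : ∫ y, F T x (δ n ^ 2) y * (- ∑ i, D i (D i η) y)
      = ∫ y in Ω, F T x (δ n ^ 2) y * (- ∑ i, D i (D i η) y) := by
    rw [setIntegral_eq_integral_of_forall_compl_eq_zero]
    intro y hy
    rw [hzero y hy]; ring
  rw [h6]
  refine (ofReal_integral_le _).trans ?_
  refine setLIntegral_mono' hΩ fun y hy => ?_
  have hq := q_pos x hd y
  have hqT : q x (δ n ^ 2) y ≤ T := by
    unfold q
    linarith [hT x hx y hy]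
  have hF0 : 0 ≤ F T x (δ n ^ 2) y := k_nonneg hq hqT
  have hF : ENNReal.ofReal (F T x (δ n ^ 2) y) ≤ Ph N T (‖x - y‖ ^ 2) := by
    unfold F
    rw [k_eq hq hqT]
    apply Ph_anti
    unfold q
    linarith
  calc ENNReal.ofReal (F T x (δ n ^ 2) y * (- ∑ i, D i (D i η) y))
      ≤ ENNReal.ofReal (F T x (δ n ^ 2) y * h y) :=
        ENNReal.ofReal_le_ofReal (mul_le_mul_of_nonneg_left (hh y hy) hF0)
    _ = ENNReal.ofReal (F T x (δ n ^ 2) y) * ENNReal.ofReal (h y) := ENNReal.ofReal_mul hF0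
    _ ≤ _ := mul_le_mul' hF le_rfl

/-- smooth convex approximation of the positive part -/
noncomputable def bb (τ s : ℝ) : ℝ := ∫ t in (0 : ℝ)..s, Real.smoothTransition (t / τ - 1)

theorem bb_cont (τ : ℝ) : Continuous fun t : ℝ => Real.smoothTransition (t / τ - 1) :=
  Real.smoothTransition.continuous.comp (by fun_prop)

theorem hasDerivAt_bb (τ s : ℝ) :
    HasDerivAt (bb τ) (Real.smoothTransition (s / τ - 1)) s := by
  unfold bb
  exact intervalIntegral.integral_hasDerivAt_right ((bb_cont τ).intervalIntegrable _ _)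
    ((bb_cont τ).stronglyMeasurableAtFilter _ _) (bb_cont τ).continuousAt

theorem deriv_bb (τ : ℝ) : deriv (bb τ) = fun s => Real.smoothTransition (s / τ - 1) := by
  funext s; exact (hasDerivAt_bb τ s).deriv

theorem contDiff_bb (τ : ℝ) : ContDiff ℝ 2 (bb τ) := by
  have h : ContDiff ℝ (1 + 1) (bb τ) := by
    rw [contDiff_succ_iff_deriv]
    refine ⟨fun s => (hasDerivAt_bb τ s).differentiableAt, by simp, ?_⟩
    rw [deriv_bb]
    exact (Real.smoothTransition.contDiff (n := 1)).comp (by fun_prop)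
  norm_num at h
  exact h

theorem deriv_deriv_bb_nonneg {τ : ℝ} (hτ : 0 < τ) (s : ℝ) : 0 ≤ deriv (deriv (bb τ)) s := by
  rw [deriv_bb]
  have hm : Monotone fun s : ℝ => Real.smoothTransition (s / τ - 1) := by
    intro a b hab
    exact Real.smoothTransition.monotone (by gcongr)
  exact hm.deriv_nonneg

theorem bb_zero {τ s : ℝ} (hτ : 0 < τ) (hs : s ≤ τ) : bb τ s = 0 := by
  unfold bb
  have h : ∀ t ∈ uIcc 0 s, Real.smoothTransition (t / τ - 1) = 0 := by
    intro t ht
    apply Real.smoothTransition.zero_of_nonpos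
    have : t ≤ τ := by
      rw [uIcc, mem_Icc] at ht
      exact ht.2.trans (max_le hτ.le hs)
    rw [sub_nonpos, div_le_one hτ]
    exact this
  rw [intervalIntegral.integral_congr h]
  simp

theorem bb_le {τ s : ℝ} (hs : 0 ≤ s) : bb τ s ≤ s := by
  unfold bb
  have h := intervalIntegral.integral_mono_on (a := 0) (b := s) hs
    ((bb_cont τ).intervalIntegrable _ _)
    (continuous_const.intervalIntegrable _ _ : IntervalIntegrable (fun _ => (1 : ℝ)) volume 0 s)
    (fun t _ => Real.smoothTransition.le_one _)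
  simpa using h

theorem bb_nonneg {τ s : ℝ} (hτ : 0 < τ) : 0 ≤ bb τ s := by
  by_cases hs : 0 ≤ s
  · unfold bb
    exact intervalIntegral.integral_nonneg hs fun t _ => Real.smoothTransition.nonneg _
  · rw [bb_zero hτ (by push Not at hs; linarith)]

theorem bb_ge {τ s : ℝ} (hτ : 0 < τ) : s - 2 * τ ≤ bb τ s := by
  by_cases hs : 2 * τ ≤ s
  · have h1 : bb τ s = (∫ t in (0 : ℝ)..(2 * τ), Real.smoothTransition (t / τ - 1))
        + ∫ t in (2 * τ)..s, Real.smoothTransition (t / τ - 1) := by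
      unfold bb
      rw [intervalIntegral.integral_add_adjacent_intervals]
      · exact (bb_cont τ).intervalIntegrable _ _
      · exact (bb_cont τ).intervalIntegrable _ _
    have h2 : 0 ≤ ∫ t in (0 : ℝ)..(2 * τ), Real.smoothTransition (t / τ - 1) :=
      intervalIntegral.integral_nonneg (by linarith) fun t _ => Real.smoothTransition.nonneg _
    have h3 : ∫ t in (2 * τ)..s, Real.smoothTransition (t / τ - 1) = s - 2 * τ := by
      have h : ∀ t ∈ uIcc (2 * τ) s, Real.smoothTransition (t / τ - 1) = 1 := by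
        intro t ht
        apply Real.smoothTransition.one_of_one_le
        rw [uIcc_of_le hs, mem_Icc] at ht
        rw [le_sub_iff_add_le, le_div_iff₀ hτ]
        linarith [ht.1]
      rw [intervalIntegral.integral_congr h]
      simp
    rw [h1, h3]; linarith
  · push Not at hs
    linarith [bb_nonneg (s := s) hτ]

theorem tendsto_bb (s : ℝ) {τ : ℕ → ℝ} (hτ : ∀ n, 0 < τ n) (hτ0 : Tendsto τ atTop (𝓝 0)) :
    Tendsto (fun n => bb (τ n) s) atTop (𝓝 (max s 0)) := by
  rcases le_or_gt s 0 with hs | hs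
  · rw [max_eq_right hs]
    have : ∀ n, bb (τ n) s = 0 := fun n => bb_zero (hτ n) (hs.trans (hτ n).le)
    simp [this]
  · rw [max_eq_left hs.le]
    have h1 : Tendsto (fun n => s - 2 * τ n) atTop (𝓝 (s - 2 * 0)) :=
      tendsto_const_nhds.sub (hτ0.const_mul 2)
    rw [mul_zero, sub_zero] at h1
    exact tendsto_of_tendsto_of_tendsto_of_le_of_le h1 tendsto_const_nhds
      (fun n => bb_ge (hτ n)) (fun n => bb_le hs.le)

/-- pointwise domination of a test function -/
theorem key_test {Ω : Set (E N)} {T : ℝ} (hT0 : 0 < T)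
    (hT : ∀ x ∈ Ω, ∀ y ∈ Ω, ‖x - y‖ ^ 2 + 1 ≤ T) (hΩ : IsOpen Ω) (hb : Bornology.IsBounded Ω)
    {ζ : E N → ℝ} (hζ : ContDiff ℝ 2 ζ) (h0 : ∀ x ∈ frontier Ω, ζ x = 0) {x : E N} (hx : x ∈ Ω) :
    ENNReal.ofReal (cN N * ζ x)
      ≤ ∫⁻ y in Ω, Ph N T (‖x - y‖ ^ 2) * ENNReal.ofReal (-(Δ ζ) y) := by
  set τ : ℕ → ℝ := fun n => 1 / ((n : ℝ) + 1) with hτdef
  have hτ : ∀ n, 0 < τ n := fun n => by rw [hτdef]; positivity
  have hτ0 : Tendsto τ atTop (𝓝 0) := tendsto_one_div_add_atTop_nhds_zero_nat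
  have hlim : Tendsto (fun n => ENNReal.ofReal (cN N * bb (τ n) (ζ x))) atTop
      (𝓝 (ENNReal.ofReal (cN N * max (ζ x) 0))) :=
    (ENNReal.continuous_ofReal.tendsto _).comp ((tendsto_bb (ζ x) hτ hτ0).const_mul _)
  have hcN : 0 ≤ cN N := integral_nonneg fun z => Kd_nonneg zero_le_one z
  refine (ENNReal.ofReal_le_ofReal
    (mul_le_mul_of_nonneg_left (le_max_left (ζ x) 0) hcN)).trans ?_
  refine le_of_tendsto hlim (Eventually.of_forall fun n => ?_)
  set η : E N → ℝ := Ω.indicator (fun y => bb (τ n) (ζ y)) with hηdef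
  have hbc : ContDiff ℝ 2 (fun y => bb (τ n) (ζ y)) := (contDiff_bb (τ n)).comp hζ
  have hnear : ∀ y, y ∉ Ω → η =ᶠ[𝓝 y] fun _ => 0 := by
    intro y hy
    by_cases hcl : y ∈ closure Ω
    · have hfr : y ∈ frontier Ω := by
        rw [frontier, hΩ.interior_eq]; exact ⟨hcl, hy⟩
      have hlt : ∀ᶠ z in 𝓝 y, ζ z < τ n := by
        have : ζ y < τ n := by rw [h0 y hfr]; exact hτ n
        exact hζ.continuous.continuousAt.eventually_lt continuousAt_const this
      filter_upwards [hlt] with z hz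
      by_cases hzΩ : z ∈ Ω
      · rw [hηdef, indicator_of_mem hzΩ]
        exact bb_zero (hτ n) hz.le
      · rw [hηdef, indicator_of_notMem hzΩ]
    · have : ∀ᶠ z in 𝓝 y, z ∉ closure Ω := isClosed_closure.isOpen_compl.mem_nhds hcl
      filter_upwards [this] with z hz
      rw [hηdef, indicator_of_notMem (fun h => hz (subset_closure h))]
  have hin : ∀ y ∈ Ω, η =ᶠ[𝓝 y] fun y => bb (τ n) (ζ y) := by
    intro y hy
    filter_upwards [hΩ.mem_nhds hy] with z hz
    rw [hηdef, indicator_of_mem hz]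
  have hηc : ContDiff ℝ 2 η := by
    rw [contDiff_iff_contDiffAt]
    intro y
    by_cases hy : y ∈ Ω
    · exact hbc.contDiffAt.congr_of_eventuallyEq (hin y hy)
    · exact contDiffAt_const.congr_of_eventuallyEq (hnear y hy)
  have hts : tsupport η ⊆ Ω := by
    intro y hy
    by_contra hc
    exact (notMem_tsupport_iff_eventuallyEq.2 (hnear y hc)) hy
  have hcs : HasCompactSupport η := by
    refine (hb.isCompact_closure).of_isClosed_subset (isClosed_tsupport η) ?_
    exact hts.trans subset_closure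
  have hmain := key_pt hT0 hT hΩ.measurableSet hηc hcs hts (h := fun y => max (-(Δ ζ) y) 0) (by
    intro y hy
    have h1 : ∑ i, D i (D i η) y = ∑ i, D i (D i (fun y => bb (τ n) (ζ y))) y := by
      refine Finset.sum_congr rfl fun i _ => ?_
      exact D_congr (D_congr_nhds (hin y hy) i) i
    rw [h1]
    simp only [DD_comp hζ (contDiff_bb (τ n))]
    rw [Finset.sum_add_distrib, ← Finset.mul_sum, ← Finset.mul_sum, ← lap_eq hζ.contDiffAt, deriv_bb]
    have h2 : 0 ≤ deriv (deriv (bb (τ n))) (ζ y) * ∑ i, (D i ζ y) ^ 2 :=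
      mul_nonneg (deriv_deriv_bb_nonneg (hτ n) _) (Finset.sum_nonneg fun i _ => sq_nonneg _)
    rw [deriv_bb] at h2
    have h3 := Real.smoothTransition.nonneg (ζ y / τ n - 1)
    have h4 := Real.smoothTransition.le_one (ζ y / τ n - 1)
    have h5 : -(Real.smoothTransition (ζ y / τ n - 1) * (Δ ζ) y) ≤ max (-(Δ ζ) y) 0 := by
      rcases le_or_gt 0 ((Δ ζ) y) with hl | hl
      · refine le_trans ?_ (le_max_right _ _)
        have := mul_nonneg h3 hl
        linarith
      · refine le_trans ?_ (le_max_left _ _)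
        nlinarith
    linarith) hx
  have hηx : η x = bb (τ n) (ζ x) := by rw [hηdef, indicator_of_mem hx]
  rw [hηx] at hmain
  refine hmain.trans (lintegral_mono fun y => ?_)
  refine mul_le_mul' le_rfl ?_
  rw [ENNReal.ofReal_max]
  simp

/-- integrated form -/
theorem key_int {Ω : Set (E N)} {T : ℝ} (hT0 : 0 < T)
    (hT : ∀ x ∈ Ω, ∀ y ∈ Ω, ‖x - y‖ ^ 2 + 1 ≤ T) (hΩ : IsOpen Ω) (hb : Bornology.IsBounded Ω)
    {ζ : E N → ℝ} (hζ : ContDiff ℝ 2 ζ) (h0 : ∀ x ∈ frontier Ω, ζ x = 0)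
    (ν : Measure (E N)) [IsFiniteMeasure ν] (hν : ν Ωᶜ = 0) :
    ∫⁻ x, ENNReal.ofReal (cN N * ζ x) ∂ν
      ≤ ∫⁻ y in Ω, Pot T ν y * ENNReal.ofReal (-(Δ ζ) y) := by
  have hm : Measurable (Δ ζ) := (lap_cont hζ).measurable
  calc ∫⁻ x, ENNReal.ofReal (cN N * ζ x) ∂ν
      ≤ ∫⁻ x, (∫⁻ y in Ω, Ph N T (‖x - y‖ ^ 2) * ENNReal.ofReal (-(Δ ζ) y)) ∂ν := by
        refine lintegral_mono_ae ?_
        have : ∀ᵐ x ∂ν, x ∈ Ω := by
          rw [ae_iff]; exact hν
        filter_upwards [this] with x hx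
        exact key_test hT0 hT hΩ hb hζ h0 hx
    _ = ∫⁻ y in Ω, ∫⁻ x, Ph N T (‖x - y‖ ^ 2) * ENNReal.ofReal (-(Δ ζ) y) ∂ν := by
        rw [lintegral_lintegral_swap]
        refine Measurable.aemeasurable ?_
        refine Measurable.mul ((measurable_Ph T).comp (by fun_prop)) ?_
        exact ENNReal.measurable_ofReal.comp ((hm.neg).comp measurable_snd)
    _ = _ := by
        refine lintegral_congr fun y => ?_
        have hmm : Measurable (fun x : E N => Ph N T (‖x - y‖ ^ 2)) :=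
          (measurable_Ph T).comp (by fun_prop)
        rw [lintegral_mul_const _ hmm, Pot_eq]
        congr 1
        refine lintegral_congr fun x => ?_
        rw [norm_sub_rev]

end Pool.Agent.R216.VPD
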