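import Mathlib

/-! Second derivatives and the Laplacian on Euclidean space. -/

namespace Pool.Agent.R216.VPD

open MeasureTheory Set Metric Filter Topology InnerProductSpace Laplacian
open scoped ContDiff ENNReal

/-- Euclidean space of dimension `N`. -/
abbrev E (N : ℕ) := EuclideanSpace ℝ (Fin N)

variable {N : ℕ}

/-- standard basis vector -/
noncomputable def bv (i : Fin N) : E N := EuclideanSpace.basisFun (Fin N) ℝ i

/-- partial derivative in the `i`-th coordinate -/
noncomputable def D (i : Fin N) (f : E N → ℝ) : E N → ℝ := fun y => fderiv ℝ f y (bv i)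

theorem contDiff_D {f : E N → ℝ} {n : ℕ∞} (hf : ContDiff ℝ (n + 1) f) (i : Fin N) :
    ContDiff ℝ n (D i f) := by
  unfold D
  exact (hf.fderiv_right (m := n) le_rfl).clm_apply contDiff_const

theorem D_congr {f g : E N → ℝ} {x : E N} (h : f =ᶠ[𝓝 x] g) (i : Fin N) : D i f x = D i g x := by
  unfold D; rw [h.fderiv_eq]

theorem D_congr_nhds {f g : E N → ℝ} {x : E N} (h : f =ᶠ[𝓝 x] g) (i : Fin N) :
    D i f =ᶠ[𝓝 x] D i g := by
  filter_upwards [h.eventuallyEq_nhds] with y hy using D_congr hy i

theorem lap_eq {f : E N → ℝ} {x : E N} (hf : ContDiffAt ℝ 2 f x) :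
    (Δ f) x = ∑ i, D i (D i f) x := by
  rw [laplacian_eq_iteratedFDeriv_orthonormalBasis f (EuclideanSpace.basisFun (Fin N) ℝ)]
  refine Finset.sum_congr rfl fun i _ => ?_
  rw [iteratedFDeriv_two_apply]
  unfold D bv
  simp only [Matrix.cons_val_zero, Matrix.cons_val_one]
  have hd : DifferentiableAt ℝ (fderiv ℝ f) x :=
    (hf.fderiv_right (m := 1) (by norm_num)).differentiableAt (by norm_num)
  rw [fderiv_clm_apply hd (differentiableAt_const _)]
  simp

theorem D_mul {f g : E N → ℝ} (hf : Differentiable ℝ f) (hg : Differentiable ℝ g) (i : Fin N) :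
    D i (fun y => f y * g y) = fun y => f y * D i g y + g y * D i f y := by
  funext y
  unfold D
  rw [fderiv_fun_mul (hf y) (hg y)]
  simp

theorem D_add {f g : E N → ℝ} (hf : Differentiable ℝ f) (hg : Differentiable ℝ g) (i : Fin N) :
    D i (fun y => f y + g y) = fun y => D i f y + D i g y := by
  funext y
  unfold D
  rw [fderiv_fun_add (hf y) (hg y)]
  simp

/-- second derivative of a product -/
theorem DD_mul {f g : E N → ℝ} (hf : ContDiff ℝ 2 f) (hg : ContDiff ℝ 2 g) (i : Fin N) (x : E N) :
    D i (D i (fun y => f y * g y)) x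
      = f x * D i (D i g) x + 2 * (D i f x * D i g x) + g x * D i (D i f) x := by
  have hf1 : Differentiable ℝ f := hf.differentiable (by norm_num)
  have hg1 : Differentiable ℝ g := hg.differentiable (by norm_num)
  have hf2 : Differentiable ℝ (D i f) :=
    (contDiff_D (n := 1) (by norm_num; exact hf) i).differentiable (by norm_num)
  have hg2 : Differentiable ℝ (D i g) :=
    (contDiff_D (n := 1) (by norm_num; exact hg) i).differentiable (by norm_num)
  rw [D_mul hf1 hg1]
  have h3 := D_add (f := fun y => f y * D i g y) (g := fun y => g y * D i f y)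
    (hf1.mul hg2) (hg1.mul hf2) i
  rw [h3, D_mul hf1 hg2, D_mul hg1 hf2]
  ring

/-- chain rule -/
theorem D_comp {f : E N → ℝ} {b : ℝ → ℝ} (hf : Differentiable ℝ f) (hb : Differentiable ℝ b)
    (i : Fin N) : D i (fun y => b (f y)) = fun y => deriv b (f y) * D i f y := by
  funext y
  unfold D
  have h := (hb (f y)).hasDerivAt.comp_hasFDerivAt y (hf y).hasFDerivAt
  have h2 : fderiv ℝ (fun y => b (f y)) y = deriv b (f y) • fderiv ℝ f y := h.fderiv
  rw [h2]
  simp

theorem DD_comp {f : E N → ℝ} {b : ℝ → ℝ} (hf : ContDiff ℝ 2 f) (hb : ContDiff ℝ 2 b)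
    (i : Fin N) (x : E N) :
    D i (D i (fun y => b (f y))) x
      = deriv b (f x) * D i (D i f) x + deriv (deriv b) (f x) * (D i f x) ^ 2 := by
  have hf1 : Differentiable ℝ f := hf.differentiable (by norm_num)
  have hb1 : Differentiable ℝ b := hb.differentiable (by norm_num)
  have hf2 : Differentiable ℝ (D i f) :=
    (contDiff_D (n := 1) (by norm_num; exact hf) i).differentiable (by norm_num)
  have hb2 : Differentiable ℝ (deriv b) := by
    have : ContDiff ℝ 1 (deriv b) := by
      have h3 : ContDiff ℝ (1 + 1) b := by norm_num; exact hb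
      exact (contDiff_succ_iff_deriv.1 h3).2.2
    exact this.differentiable (by norm_num)
  rw [D_comp hf1 hb1]
  have h1 := D_mul (f := fun y => deriv b (f y)) (g := D i f) (hb2.comp hf1) hf2 i
  rw [h1]
  have h2 := D_comp (f := f) (b := deriv b) hf1 hb2 i
  rw [h2]
  ring

theorem lap_cont {f : E N → ℝ} (hf : ContDiff ℝ 2 f) : Continuous (Δ f) := by
  have : (Δ f) = fun x => ∑ i, D i (D i f) x := by
    funext x; exact lap_eq hf.contDiffAt
  rw [this]
  refine continuous_finsetSum _ fun i _ => ?_
  have h1 : ContDiff ℝ 1 (D i f) := contDiff_D (n := 1) (by norm_num; exact hf) i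
  exact (contDiff_D (n := 0) (by norm_num; exact h1) i).continuous

end Pool.Agent.R216.VPD
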