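import Pool.Agent.R216.VPD.Key
import Pool.Agent.R216.VPD.Defs

/-! Lower bound of a solution by potentials. -/

namespace Pool.Agent.R216.VPD

open MeasureTheory Set Metric Filter Topology InnerProductSpace Laplacian
open scoped ENNReal

variable {N : ℕ}

/-- the regularised potential -/
noncomputable def Pd (T d : ℝ) (ν : Measure (E N)) (x : E N) : ℝ≥0∞ :=
  ∫⁻ y, Ph N T (‖x - y‖ ^ 2 + d) ∂ν

theorem Pd_le {T d : ℝ} (hd : 0 ≤ d) (ν : Measure (E N)) [SFinite ν] (x : E N) :
    Pd T d ν x ≤ Pot T ν x := by
  rw [Pot_eq]
  exact lintegral_mono fun y => Ph_anti T (by linarith)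

theorem Pd_lt_top {T d : ℝ} (hd : 0 < d) (ν : Measure (E N)) [IsFiniteMeasure ν] (x : E N) :
    Pd T d ν x < ∞ := by
  calc Pd T d ν x ≤ ∫⁻ _, Ph N T d ∂ν := lintegral_mono fun y => Ph_anti T (by
        have := sq_nonneg ‖x - y‖
        linarith)
    _ = Ph N T d * ν univ := lintegral_const _
    _ < ∞ := ENNReal.mul_lt_top (Ph_lt_top hd) (measure_lt_top _ _)

theorem measurable_Pd (T d : ℝ) (ν : Measure (E N)) [SFinite ν] : Measurable (Pd T d ν) := by
  apply Measurable.lintegral_prod_right'
    (f := fun p : E N × E N => Ph N T (‖p.1 - p.2‖ ^ 2 + d))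
  exact (measurable_Ph T).comp (by fun_prop)

/-- the regularisation parameters -/
noncomputable def de (n : ℕ) : ℝ := 1 / ((n : ℝ) + 1)

theorem de_pos (n : ℕ) : 0 < de n := by unfold de; positivity

theorem de_anti : Antitone de := fun a b h => by
  unfold de
  gcongr

theorem de_lim : Tendsto de atTop (𝓝 0) := tendsto_one_div_add_atTop_nhds_zero_nat

theorem de_le_one (n : ℕ) : de n ≤ 1 := by
  unfold de
  rw [div_le_one (by positivity)]
  have : (0 : ℝ) ≤ n := Nat.cast_nonneg n
  linarith

theorem Ph_tendsto (T s : ℝ) :
    Tendsto (fun n => Ph N T (s + de n ^ 2)) atTop (𝓝 (Ph N T s)) := by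
  set mw : Measure ℝ := volume.withDensity (w N)
  have h1 : ∀ s, Ph N T s = mw (Ioo s T) := fun s => by
    rw [withDensity_apply _ measurableSet_Ioo]; rfl
  simp only [h1]
  have h2 : Ioo s T = ⋃ n, Ioo (s + de n ^ 2) T := by
    ext t
    simp only [mem_Ioo, mem_iUnion]
    constructor
    · rintro ⟨h, h'⟩
      have h3 : Tendsto (fun n => s + de n ^ 2) atTop (𝓝 (s + 0 ^ 2)) :=
        tendsto_const_nhds.add (de_lim.pow 2)
      have h4 : ∀ᶠ n in atTop, s + de n ^ 2 < t := h3.eventually_lt_const (by simpa using h)
      obtain ⟨n, hn⟩ := h4.exists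
      exact ⟨n, hn, h'⟩
    · rintro ⟨n, h, h'⟩
      exact ⟨lt_of_le_of_lt (by have := sq_nonneg (de n); linarith) h, h'⟩
  rw [h2]
  refine tendsto_measure_iUnion_atTop ?_
  intro a b hab
  refine Ioo_subset_Ioo_left ?_
  have := de_anti hab
  have h5 := de_pos b
  gcongr

theorem Pd_tendsto (T : ℝ) (ν : Measure (E N)) [SFinite ν] (x : E N) :
    Tendsto (fun n => Pd T (de n ^ 2) ν x) atTop (𝓝 (Pot T ν x)) := by
  rw [Pot_eq]
  refine lintegral_tendsto_of_tendsto_of_monotone ?_ ?_ ?_
  · intro n
    exact ((measurable_Ph T).comp (by fun_prop)).aemeasurable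
  · refine Eventually.of_forall fun y => ?_
    intro a b hab
    refine Ph_anti T ?_
    have := de_anti hab
    have h5 := de_pos b
    gcongr
  · exact Eventually.of_forall fun y => Ph_tendsto T _

theorem conv_abs_le {η : E N → ℝ} {C : ℝ} (hC : 0 ≤ C) (hb : ∀ y, |η y| ≤ C) {δ : ℝ} (hδ : 0 < δ)
    (x : E N) : |∫ y, η y * Kd N (δ ^ 2) (x - y)| ≤ C * cN N := by
  rw [conv_eq hδ, ← Real.norm_eq_abs]
  unfold cN
  rw [← integral_const_mul]
  refine norm_integral_le_of_norm_le (integrable_Kd_one.const_mul C) (Eventually.of_forall fun z => ?_)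
  rw [Real.norm_eq_abs, abs_mul, abs_of_nonneg (Kd_nonneg zero_le_one z)]
  exact mul_le_mul_of_nonneg_right (hb _) (Kd_nonneg zero_le_one z)

/-- passing to the limit in averaged inequalities -/
theorem limit_step {T C : ℝ} {U : Set (E N)} (hU : IsOpen U) {v : E N → ℝ} (hv : Integrable v)
    (σ f : Measure (E N)) [IsFiniteMeasure σ] [IsFiniteMeasure f]
    (h : ∀ n, ∀ x ∈ U, Pot T f x < ∞ →
      (Pd T (de n ^ 2) σ x).toReal
        ≤ (∫ y, v y * Kd N (de n ^ 2) (x - y)) + (Pot T f x).toReal + C) :
    ∀ᵐ x, x ∈ U → (Pot T σ x).toReal ≤ cN N * v x + (Pot T f x).toReal + C := by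
  have hintPot : ∀ ν : Measure (E N), IsFiniteMeasure ν →
      Integrable (fun x => (Pot T ν x).toReal) := by
    intro ν hν
    refine integrable_toReal_of_lintegral_ne_top (measurable_Pot T ν).aemeasurable ?_
    rw [lintegral_Pot]
    exact (ENNReal.mul_lt_top (measure_lt_top _ _)
      (ENNReal.mul_lt_top om_lt_top ENNReal.ofReal_lt_top)).ne
  have hσ := hintPot σ inferInstance
  have hf := hintPot f inferInstance
  set G : E N → ℝ := fun x => cN N * v x + (Pot T f x).toReal + C - (Pot T σ x).toReal with hG
  have hloc : LocallyIntegrable G := by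
    refine LocallyIntegrable.sub (LocallyIntegrable.add ?_ (locallyIntegrable_const C))
      hσ.locallyIntegrable
    exact ((hv.const_mul _).add hf).locallyIntegrable
  have hball : ∀ x₀ r, 0 < r → closedBall x₀ r ⊆ U → 0 ≤ ∫ x in closedBall x₀ r, G x := by
    intro x₀ r hr hsub
    set B := closedBall x₀ r with hB
    have hBfin : volume B ≠ ∞ := (isCompact_closedBall x₀ r).measure_ne_top
    have hBm : MeasurableSet B := measurableSet_closedBall
    have : IsFiniteMeasure (volume.restrict B) := ⟨by
      rw [Measure.restrict_apply_univ]; exact hBfin.lt_top⟩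
    -- inner integrals
    set I : ℕ → E N → ℝ := fun n y => ∫ x, B.indicator (fun _ => (1 : ℝ)) x * Kd N (de n ^ 2) (y - x)
      with hI
    have hswap : ∀ n, ∫ x in B, (∫ y, v y * Kd N (de n ^ 2) (x - y)) = ∫ y, v y * I n y := by
      intro n
      have hd : 0 < de n ^ 2 := by have := de_pos n; positivity
      rw [integral_integral_swap]
      · refine integral_congr_ae (Eventually.of_forall fun y => ?_)
        simp only [hI]
        rw [integral_const_mul]
        congr 1
        rw [← integral_indicator hBm]
        refine integral_congr_ae (Eventually.of_forall fun x => ?_)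
        simp only
        by_cases hx : x ∈ B
        · rw [indicator_of_mem hx, indicator_of_mem hx, one_mul, ← Kd_even, neg_sub]
        · rw [indicator_of_notMem hx, indicator_of_notMem hx, zero_mul]
      · have h1 : Integrable (fun p : E N × E N => (1 : ℝ) * v p.2)
            ((volume.restrict B).prod volume) := (integrable_const (1 : ℝ)).mul_prod hv
        have h2 : Integrable (fun p : E N × E N => (v p.2) * Kd N (de n ^ 2) (p.1 - p.2))
            ((volume.restrict B).prod volume) := by
          simp only [one_mul] at h1
          refine h1.mul_bdd (c := 2 * N * (de n ^ 2) * (de n ^ 2) ^ (-(N : ℝ) / 2 - 1)) ?_ ?_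
          · exact ((continuous_Kd hd).comp (by fun_prop)).aestronglyMeasurable
          · refine Eventually.of_forall fun p => ?_
            rw [Real.norm_of_nonneg (Kd_nonneg hd.le _)]
            exact Kd_le hd _
        exact h2
    have hlimI : Tendsto (fun n => ∫ y, v y * I n y) atTop
        (𝓝 (∫ y, v y * (cN N * B.indicator (fun _ => (1 : ℝ)) y))) := by
      refine tendsto_integral_of_dominated_convergence (fun y => |v y| * cN N) ?_ ?_ ?_ ?_
      · intro n
        refine hv.1.mul ?_
        refine StronglyMeasurable.aestronglyMeasurable ?_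
        refine StronglyMeasurable.integral_prod_right
          (f := fun (y x : E N) => B.indicator (fun _ => (1 : ℝ)) x * Kd N (de n ^ 2) (y - x)) ?_
        have hd : 0 < de n ^ 2 := by have := de_pos n; positivity
        refine Measurable.stronglyMeasurable ?_
        refine Measurable.mul ?_ ?_
        · exact (measurable_const.indicator hBm).comp measurable_snd
        · exact ((continuous_Kd hd).comp (by fun_prop)).measurable
      · exact hv.abs.mul_const _
      · intro n
        refine Eventually.of_forall fun y => ?_
        rw [norm_mul, Real.norm_eq_abs, Real.norm_eq_abs]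
        refine mul_le_mul_of_nonneg_left ?_ (abs_nonneg _)
        have := conv_abs_le (η := B.indicator (fun _ => (1 : ℝ))) zero_le_one (by
          intro z
          by_cases hz : z ∈ B
          · rw [indicator_of_mem hz]; simp
          · rw [indicator_of_notMem hz]; simp) (de_pos n) y
        simpa using this
      · have hsph : ∀ᵐ y : E N, y ∉ sphere x₀ r := by
          rw [← measure_eq_zero_iff_ae_notMem]
          exact Measure.addHaar_sphere_of_ne_zero _ _ hr.ne'
        filter_upwards [hsph] with y hy
        refine Tendsto.const_mul _ ?_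
        refine tendsto_conv (C := 1) ?_ (measurable_const.indicator hBm) ?_ de_pos de_lim
        · intro z
          by_cases hz : z ∈ B
          · rw [indicator_of_mem hz]; simp
          · rw [indicator_of_notMem hz]; simp
        · by_cases hyB : y ∈ B
          · have hy2 : y ∈ ball x₀ r := by
              rw [hB, mem_closedBall] at hyB
              rw [mem_sphere] at hy
              exact lt_of_le_of_ne hyB hy
            have h3 : B.indicator (fun _ => (1 : ℝ)) =ᶠ[𝓝 y] fun _ => 1 := by
              filter_upwards [isOpen_ball.mem_nhds hy2] with z hz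
              rw [indicator_of_mem (ball_subset_closedBall hz)]
            exact continuousAt_const.congr h3.symm
          · have h3 : B.indicator (fun _ => (1 : ℝ)) =ᶠ[𝓝 y] fun _ => 0 := by
              filter_upwards [isClosed_closedBall.isOpen_compl.mem_nhds hyB] with z hz
              rw [indicator_of_notMem hz]
            exact continuousAt_const.congr h3.symm
    have hlimA : Tendsto (fun n => ∫ x in B, (Pd T (de n ^ 2) σ x).toReal) atTop
        (𝓝 (∫ x in B, (Pot T σ x).toReal)) := by
      refine tendsto_integral_of_dominated_convergence (fun x => (Pot T σ x).toReal) ?_ ?_ ?_ ?_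
      · intro n
        exact (measurable_Pd T _ σ).ennreal_toReal.aestronglyMeasurable
      · exact hσ.integrableOn
      · intro n
        filter_upwards [ae_restrict_of_ae (Pot_ae_lt_top T σ)] with x hx
        rw [Real.norm_of_nonneg ENNReal.toReal_nonneg]
        exact ENNReal.toReal_mono hx.ne (Pd_le (by positivity) σ x)
      · filter_upwards [ae_restrict_of_ae (Pot_ae_lt_top T σ)] with x hx
        exact (ENNReal.tendsto_toReal hx.ne).comp (Pd_tendsto T σ x)
    have hineq : ∀ n, ∫ x in B, (Pd T (de n ^ 2) σ x).toReal
        ≤ (∫ y, v y * I n y) + ∫ x in B, ((Pot T f x).toReal + C) := by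
      intro n
      have hd : 0 < de n ^ 2 := by have := de_pos n; positivity
      have hi1 : Integrable (fun x => ∫ y, v y * Kd N (de n ^ 2) (x - y)) (volume.restrict B) := by
        have h1 : Integrable (fun p : E N × E N => (1 : ℝ) * v p.2)
            ((volume.restrict B).prod volume) := (integrable_const (1 : ℝ)).mul_prod hv
        have h2 : Integrable (fun p : E N × E N => (v p.2) * Kd N (de n ^ 2) (p.1 - p.2))
            ((volume.restrict B).prod volume) := by
          simp only [one_mul] at h1
          refine h1.mul_bdd (c := 2 * N * (de n ^ 2) * (de n ^ 2) ^ (-(N : ℝ) / 2 - 1)) ?_ ?_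
          · exact ((continuous_Kd hd).comp (by fun_prop)).aestronglyMeasurable
          · refine Eventually.of_forall fun p => ?_
            rw [Real.norm_of_nonneg (Kd_nonneg hd.le _)]
            exact Kd_le hd _
        exact h2.integral_prod_left
      have hi2 : Integrable (fun x => (Pot T f x).toReal + C) (volume.restrict B) :=
        hf.integrableOn.add (integrable_const C)
      rw [← hswap n, ← integral_add hi1 hi2]
      refine integral_mono_ae ?_ (hi1.add hi2) ?_
      · refine (hσ.integrableOn (s := B)).mono'
          (measurable_Pd T _ σ).ennreal_toReal.aestronglyMeasurable ?_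
        filter_upwards [ae_restrict_of_ae (Pot_ae_lt_top T σ)] with x hx
        rw [Real.norm_of_nonneg ENNReal.toReal_nonneg]
        exact ENNReal.toReal_mono hx.ne (Pd_le (by positivity) σ x)
      · filter_upwards [ae_restrict_of_ae (Pot_ae_lt_top T f), ae_restrict_mem hBm] with x hx hxB
        have := h n x (hsub hxB) hx
        linarith
    have hfin := le_of_tendsto_of_tendsto' hlimA (hlimI.add tendsto_const_nhds) hineq
    have h5 : ∫ y, v y * (cN N * B.indicator (fun _ => (1 : ℝ)) y) = ∫ y in B, cN N * v y := by
      rw [← integral_indicator hBm]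
      refine integral_congr_ae (Eventually.of_forall fun y => ?_)
      simp only
      by_cases hy : y ∈ B
      · rw [indicator_of_mem hy, indicator_of_mem hy]; ring
      · rw [indicator_of_notMem hy, indicator_of_notMem hy]; ring
    rw [h5] at hfin
    have h6 : ∫ x in B, G x = (∫ y in B, cN N * v y) + (∫ x in B, ((Pot T f x).toReal + C))
        - ∫ x in B, (Pot T σ x).toReal := by
      have hi2 : Integrable (fun x => (Pot T f x).toReal + C) (volume.restrict B) :=
        hf.integrableOn.add (integrable_const C)
      have hi3 : Integrable (fun x => cN N * v x) (volume.restrict B) :=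
        (hv.const_mul _).integrableOn
      have hs : Integrable (fun x => cN N * v x + ((Pot T f x).toReal + C))
        (volume.restrict B) := hi3.add hi2
      rw [← integral_add hi3 hi2, ← integral_sub hs hσ.integrableOn]
      refine integral_congr_ae (Eventually.of_forall fun y => ?_)
      simp only [hG]
      ring
    rw [h6]; linarith
  filter_upwards [IsUnifLocDoublingMeasure.ae_tendsto_average (μ := (volume : Measure (E N)))
    hloc 1] with x hx hxU
  have hlim : Tendsto de atTop (𝓝[>] 0) :=
    tendsto_nhdsWithin_iff.2 ⟨de_lim, Eventually.of_forall fun n => de_pos n⟩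
  have h1 := hx (fun _ => x) de hlim (Eventually.of_forall fun n => by
    rw [one_mul]; exact mem_closedBall_self (de_pos n).le)
  have h2 : ∀ᶠ n in atTop, closedBall x (de n) ⊆ U := by
    obtain ⟨ε, hε, hεU⟩ := Metric.isOpen_iff.1 hU x hxU
    filter_upwards [de_lim.eventually_lt_const hε] with n hn
    exact (closedBall_subset_ball hn).trans hεU
  have h3 : 0 ≤ G x := by
    refine ge_of_tendsto h1 ?_
    filter_upwards [h2] with n hn
    rw [setAverage_eq]
    exact smul_nonneg (by positivity) (hball x (de n) (de_pos n) hn)
  simp only [hG] at h3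
  linarith

end Pool.Agent.R216.VPD
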