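import Pool.Agent.R216.VPD.Lower

/-! Lower bound of a solution of the nonlinear problem near a compact set. -/

namespace Pool.Agent.R216.VPD

open MeasureTheory Set Metric Filter Topology InnerProductSpace Laplacian
open scoped ENNReal ContDiff

variable {N : ℕ}

/-- the measure `g(u)^+ dx` on `Ω` -/
noncomputable def gm (g : ℝ → ℝ) (Ω : Set (E N)) (u : E N → ℝ) : Measure (E N) :=
  (volume.restrict Ω).withDensity (fun y => ENNReal.ofReal (g (u y)))

theorem gm_finite {g : ℝ → ℝ} {Ω : Set (E N)} {u : E N → ℝ}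
    (hg : IntegrableOn (fun x => g (u x)) Ω) : IsFiniteMeasure (gm g Ω u) := by
  constructor
  unfold gm
  rw [withDensity_apply _ MeasurableSet.univ, Measure.restrict_univ]
  refine lt_of_le_of_lt (lintegral_mono fun x => ?_) hg.2
  exact Real.ofReal_le_enorm _

theorem exists_cutoff {Ω s : Set (E N)} (hΩ : IsOpen Ω) (hs : IsClosed s) (hsΩ : s ⊆ Ω) :
    ∃ χ : E N → ℝ, ContDiff ℝ ∞ χ ∧ (∀ y ∈ s, χ =ᶠ[𝓝 y] fun _ => 1) ∧ (∀ y, y ∉ Ω → χ y = 0) ∧
      ∀ y, χ y ∈ Icc (0 : ℝ) 1 := by
  obtain ⟨f, h1, h2, h3⟩ := exists_contMDiffMap_one_nhds_of_subset_interior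
    (modelWithCornersSelf ℝ (E N)) (n := (⊤ : ℕ∞)) hs (by rwa [hΩ.interior_eq])
  refine ⟨f, f.contMDiff.contDiff, ?_, h2, h3⟩
  intro y hy
  exact (eventually_nhdsSet_iff_forall.1 h1) y hy

theorem lower_bound {Ω : Set (E N)} {T : ℝ} (hT0 : 0 < T)
    (hT : ∀ x ∈ Ω, ∀ y ∈ Ω, ‖x - y‖ ^ 2 + 1 ≤ T) (hΩ : IsOpen Ω) (hb : Bornology.IsBounded Ω)
    {g : ℝ → ℝ} {u : E N → ℝ} (μ σ : Measure (E N)) [IsFiniteMeasure μ] [IsFiniteMeasure σ]
    (hμ : μ Ωᶜ = 0) (hσμ : σ ≤ μ) (hu : SolvesNonlinear g Ω μ u)
    {K₀ : Set (E N)} {r : ℝ} (hr : 0 < r) (hK : cthickening (2 * r) K₀ ⊆ Ω) :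
    ∃ C : ℝ, 0 ≤ C ∧ ∀ᵐ x, x ∈ thickening r K₀ →
      (Pot T σ x).toReal ≤ cN N * u x + (Pot T (gm g Ω u) x).toReal + C := by
  obtain ⟨hu1, hu2, hu3⟩ := hu
  obtain ⟨χ, hχ1, hχ2, hχ3, hχ4⟩ := exists_cutoff hΩ (isClosed_cthickening) hK
  have hχc2 : ContDiff ℝ 2 χ := hχ1.of_le (by norm_cast)
  have hcl := hb.isCompact_closure
  have hD1 : ∀ i, Continuous (D i χ) := fun i =>
    (contDiff_D (n := 1) (by norm_num; exact hχc2) i).continuous
  have hD2 : ∀ i, Continuous (D i (D i χ)) := fun i =>
    (contDiff_D (n := 0) (by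
      norm_num
      exact contDiff_D (n := 1) (by norm_num; exact hχc2) i) i).continuous
  obtain ⟨A, hA⟩ := hcl.exists_bound_of_continuousOn
    (f := fun y => (∑ i, |D i χ y|) + ∑ i, |D i (D i χ) y|)
    (Continuous.continuousOn (by
      refine Continuous.add ?_ ?_
      · exact continuous_finsetSum _ fun i _ => (hD1 i).abs
      · exact continuous_finsetSum _ fun i _ => (hD2 i).abs))
  have hA1 : ∀ y ∈ Ω, ∑ i, |D i χ y| ≤ |A| := by
    intro y hy
    have h1 := hA y (subset_closure hy)
    have h2 : (0 : ℝ) ≤ ∑ i, |D i (D i χ) y| := Finset.sum_nonneg fun i _ => abs_nonneg _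
    have h3 := (le_abs_self _).trans h1
    have h4 := le_abs_self A
    linarith
  have hA2 : ∀ y ∈ Ω, ∑ i, |D i (D i χ) y| ≤ |A| := by
    intro y hy
    have h1 := hA y (subset_closure hy)
    have h2 : (0 : ℝ) ≤ ∑ i, |D i χ y| := Finset.sum_nonneg fun i _ => abs_nonneg _
    have h3 := (le_abs_self _).trans h1
    have h4 := le_abs_self A
    linarith
  have hr2 : 0 < r ^ 2 := by positivity
  set B1 : ℝ := 2 * (r ^ 2) ^ (-(N : ℝ) / 2) * T with hB1
  set B2 : ℝ := (Ph N T (r ^ 2)).toReal with hB2
  have hB10 : 0 ≤ B1 := by positivity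
  have hB20 : 0 ≤ B2 := ENNReal.toReal_nonneg
  set CR : ℝ := 2 * (|A| * B1) + B2 * |A| with hCR
  have hCR0 : 0 ≤ CR := by positivity
  have hfin := gm_finite hu2
  have hσΩ : σ Ωᶜ = 0 := le_antisymm ((hσμ _).trans hμ.le) (by simp)
  set C : ℝ := CR * (∫ y in Ω, |u y|) + (Ph N T (r ^ 2) * σ univ).toReal with hC
  have hC0 : 0 ≤ C := by
    rw [hC]
    have : 0 ≤ ∫ y in Ω, |u y| := integral_nonneg fun y => abs_nonneg _
    positivity
  set v : E N → ℝ := Ω.indicator (fun y => u y * χ y) with hv
  have hχb : ∀ y, ‖χ y‖ ≤ 1 := fun y => by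
    rw [Real.norm_of_nonneg (hχ4 y).1]; exact (hχ4 y).2
  have huχ : IntegrableOn (fun y => u y * χ y) Ω :=
    hu1.mul_bdd hχ1.continuous.aestronglyMeasurable (Eventually.of_forall hχb)
  have hvint : Integrable v := huχ.integrable_indicator hΩ.measurableSet
  have hsubset : thickening r K₀ ⊆ cthickening (2 * r) K₀ :=
    (thickening_subset_cthickening _ _).trans (cthickening_mono (by linarith) _)
  refine ⟨C, hC0, ?_⟩
  have hmain := limit_step (T := T) (C := C) (U := thickening r K₀) isOpen_thickening hvint σ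
    (gm g Ω u) (by
    intro n x hx hfx
    have hxΩ : x ∈ Ω := hK (hsubset hx)
    set d : ℝ := de n ^ 2 with hd
    have hd0 : 0 < d := by have := de_pos n; positivity
    have hd1 : d ≤ 1 := by
      have h1 := de_pos n
      have h2 := de_le_one n
      rw [hd]; nlinarith
    set Fx : E N → ℝ := F T x d with hFx
    have hFs : ContDiff ℝ ∞ Fx := contDiff_F hT0 x hd0
    have hFs2 : ContDiff ℝ 2 Fx := hFs.of_le (by norm_cast)
    have hFnn : ∀ y ∈ Ω, 0 ≤ Fx y := fun y hy => by
      refine k_nonneg (q_pos x hd0 y) ?_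
      unfold q; linarith [hT x hxΩ y hy]
    have hFPh : ∀ y ∈ Ω, ENNReal.ofReal (Fx y) = Ph N T (‖x - y‖ ^ 2 + d) := fun y hy => by
      have hq : q x d y ≤ T := by unfold q; linarith [hT x hxΩ y hy]
      exact k_eq (q_pos x hd0 y) hq
    -- far points
    have hfar : ∀ y, y ∉ cthickening (2 * r) K₀ → r ≤ ‖x - y‖ := by
      intro y hy
      by_contra hc
      push Not at hc
      apply hy
      obtain ⟨z, hz, hxz⟩ := mem_thickening_iff.1 hx
      refine thickening_subset_cthickening _ _ (mem_thickening_iff.2 ⟨z, hz, ?_⟩)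
      calc dist y z ≤ dist y x + dist x z := dist_triangle _ _ _
        _ < r + r := by
            rw [dist_comm y x, dist_eq_norm]; exact add_lt_add hc hxz
        _ = 2 * r := by ring
    set R : E N → ℝ := fun y => ∑ i, (2 * (D i χ y * D i Fx y) + Fx y * D i (D i χ) y) with hR
    have hRb : ∀ y ∈ Ω, |R y| ≤ CR := by
      intro y hy
      by_cases hyc : y ∈ cthickening (2 * r) K₀
      · have h1 : ∀ i, D i χ y = 0 := fun i => by
          rw [D_congr (hχ2 y hyc) i]; unfold D; simp
        have h2 : ∀ i, D i (D i χ) y = 0 := fun i => by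
          have h3 := D_congr_nhds (hχ2 y hyc) i
          have h4 : D i (fun _ : E N => (1 : ℝ)) = fun _ => 0 := by
            funext z; unfold D; simp
          rw [h4] at h3
          rw [D_congr h3 i]; unfold D; simp
        have : R y = 0 := by
          rw [hR]; simp only [h1, h2]; simp
        rw [this, abs_zero]; exact hCR0
      · have hry := hfar y hyc
        have hq : r ^ 2 ≤ q x d y := by
          unfold q
          nlinarith [hr]
        have hqT : q x d y ≤ T := by unfold q; linarith [hT x hxΩ y hy]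
        have hnT : ‖x - y‖ ≤ T := by
          have h1 := hT x hxΩ y hy
          nlinarith [sq_nonneg (‖x - y‖ - 1), norm_nonneg (x - y)]
        have hDF : ∀ i, |D i Fx y| ≤ B1 := by
          intro i
          rw [hFx, D_F hT0 x hd0 i]
          simp only
          rw [abs_mul, abs_of_nonneg (by have := q_pos x hd0 y; positivity)]
          have h1 : |inner ℝ (x - y) (bv i)| ≤ ‖x - y‖ := by
            refine (abs_real_inner_le_norm _ _).trans ?_
            have : ‖(bv i : E N)‖ = 1 := by simp [bv]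
            rw [this, mul_one]
          have h2 : (q x d y) ^ (-(N : ℝ) / 2) ≤ (r ^ 2) ^ (-(N : ℝ) / 2) := by
            refine Real.rpow_le_rpow_of_nonpos hr2 hq ?_
            have : (0 : ℝ) ≤ N := Nat.cast_nonneg N
            linarith
          rw [hB1]
          have h3 : 0 ≤ (q x d y) ^ (-(N : ℝ) / 2) := by
            have := q_pos x hd0 y; positivity
          have h4 : |inner ℝ (x - y) (bv i)| ≤ T := h1.trans hnT
          gcongr
        have hFb : |Fx y| ≤ B2 := by
          rw [abs_of_nonneg (hFnn y hy)]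
          have h1 : ENNReal.ofReal (Fx y) ≤ Ph N T (r ^ 2) := by
            rw [hFPh y hy]; exact Ph_anti T hq
          exact (ENNReal.ofReal_le_iff_le_toReal (Ph_lt_top hr2).ne).1 h1
        calc |R y| ≤ ∑ i, |2 * (D i χ y * D i Fx y) + Fx y * D i (D i χ) y| :=
              Finset.abs_sum_le_sum_abs _ _
          _ ≤ ∑ i, (2 * (|D i χ y| * B1) + B2 * |D i (D i χ) y|) := by
              refine Finset.sum_le_sum fun i _ => ?_
              refine (abs_add_le _ _).trans ?_
              rw [abs_mul, abs_mul, abs_mul, abs_two]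
              gcongr
              exact hDF i
          _ = 2 * ((∑ i, |D i χ y|) * B1) + B2 * ∑ i, |D i (D i χ) y| := by
              rw [Finset.sum_add_distrib, ← Finset.mul_sum, ← Finset.mul_sum, Finset.sum_mul]
          _ ≤ CR := by
              rw [hCR]
              gcongr
              · exact hA1 y hy
              · exact hA2 y hy
    set ζ : E N → ℝ := fun y => χ y * Fx y with hζ
    have hζt : IsTest Ω ζ := by
      refine ⟨hχ1.mul hFs, fun y hy => ?_⟩
      have : y ∉ Ω := by
        rw [frontier, hΩ.interior_eq] at hy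
        exact hy.2
      rw [hζ]; simp only; rw [hχ3 y this, zero_mul]
    have hζnn : ∀ y ∈ Ω, 0 ≤ ζ y := fun y hy => mul_nonneg (hχ4 y).1 (hFnn y hy)
    have hζcont : Continuous ζ := hζt.1.continuous
    have hlap : ∀ y, (Δ ζ) y = -(χ y * Kd N d (x - y)) + R y := by
      intro y
      rw [lap_eq (hζt.1.of_le (by norm_cast)).contDiffAt]
      have h1 : ∀ i, D i (D i ζ) y = χ y * D i (D i Fx) y
          + (2 * (D i χ y * D i Fx y) + Fx y * D i (D i χ) y) := by
        intro i
        rw [hζ, DD_mul hχc2 hFs2 i y]; ring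
      simp only [h1]
      rw [Finset.sum_add_distrib, ← Finset.mul_sum, hFx, lap_F hT0 x hd0 y]
      ring
    have hid := hu3 ζ hζt
    have hRcont : Continuous R := by
      have h1 : ∀ i, Continuous (D i Fx) := fun i =>
        (contDiff_D (n := 1) (by norm_num; exact hFs2) i).continuous
      refine continuous_finsetSum _ fun i _ => ?_
      exact (continuous_const.mul ((hD1 i).mul (h1 i))).add (hFs.continuous.mul (hD2 i))
    have hKint : IntegrableOn (fun y => u y * (χ y * Kd N d (x - y))) Ω := by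
      refine hu1.mul_bdd (c := 2 * N * d * d ^ (-(N : ℝ) / 2 - 1))
        ((hχ1.continuous.mul ((continuous_Kd hd0).comp (by fun_prop))).aestronglyMeasurable)
        (Eventually.of_forall fun y => ?_)
      rw [norm_mul]
      have h1 := hχb y
      have h2 := Kd_le hd0 (x - y)
      have h3 := Kd_nonneg (N := N) hd0.le (x - y)
      rw [Real.norm_of_nonneg h3]
      have h4 := norm_nonneg (χ y)
      nlinarith
    have hRint : IntegrableOn (fun y => u y * R y) Ω := by
      refine hu1.mul_bdd (c := CR) hRcont.aestronglyMeasurable ?_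
      filter_upwards [ae_restrict_mem hΩ.measurableSet] with y hy
      exact hRb y hy
    have h1 : -∫ y in Ω, u y * (Δ ζ) y
        = (∫ y in Ω, u y * (χ y * Kd N d (x - y))) - ∫ y in Ω, u y * R y := by
      rw [← integral_sub hKint hRint, ← integral_neg]
      refine integral_congr_ae (Eventually.of_forall fun y => ?_)
      simp only
      rw [hlap y]; ring
    have h2 : ∫ y in Ω, u y * (χ y * Kd N d (x - y)) = ∫ y, v y * Kd N d (x - y) := by
      rw [← integral_indicator hΩ.measurableSet]
      refine integral_congr_ae (Eventually.of_forall fun y => ?_)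
      simp only [hv]
      by_cases hy : y ∈ Ω
      · rw [indicator_of_mem hy, indicator_of_mem hy]; ring
      · rw [indicator_of_notMem hy, indicator_of_notMem hy]; ring
    have h3 : -(∫ y in Ω, u y * R y) ≤ CR * ∫ y in Ω, |u y| := by
      refine (neg_le_abs _).trans ?_
      rw [← Real.norm_eq_abs, ← integral_const_mul]
      refine norm_integral_le_of_norm_le (hu1.abs.const_mul _) ?_
      filter_upwards [ae_restrict_mem hΩ.measurableSet] with y hy
      rw [norm_mul, mul_comm, Real.norm_eq_abs, Real.norm_eq_abs]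
      exact mul_le_mul_of_nonneg_right (hRb y hy) (abs_nonneg _)
    -- the source term
    obtain ⟨Cζ, hCζ⟩ := hcl.exists_bound_of_continuousOn hζcont.continuousOn
    have hgζ : IntegrableOn (fun y => g (u y) * ζ y) Ω := by
      refine hu2.mul_bdd (c := Cζ) hζcont.aestronglyMeasurable ?_
      filter_upwards [ae_restrict_mem hΩ.measurableSet] with y hy
      exact hCζ y (subset_closure hy)
    have h4 : ∫ y in Ω, g (u y) * ζ y ≤ (Pot T (gm g Ω u) x).toReal := by
      have h5 : ENNReal.ofReal (∫ y in Ω, g (u y) * ζ y) ≤ Pot T (gm g Ω u) x := by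
        refine (ofReal_integral_le _).trans ?_
        rw [Pot_eq]
        unfold gm
        have hm1 : AEMeasurable (fun y => ENNReal.ofReal (g (u y))) (volume.restrict Ω) :=
          ENNReal.measurable_ofReal.comp_aemeasurable hu2.1.aemeasurable
        have hm2 : Measurable (fun y : E N => Ph N T (‖x - y‖ ^ 2)) :=
          (measurable_Ph T).comp (by fun_prop)
        rw [lintegral_withDensity_eq_lintegral_mul₀ hm1 hm2.aemeasurable]
        refine lintegral_mono_ae ?_
        filter_upwards [ae_restrict_mem hΩ.measurableSet] with y hy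
        rw [Pi.mul_apply]
        rw [mul_comm (g (u y)), ENNReal.ofReal_mul (hζnn y hy), mul_comm]
        refine mul_le_mul' le_rfl ?_
        have h6 : ζ y ≤ Fx y := by
          rw [hζ]; simp only
          nlinarith [(hχ4 y).2, hFnn y hy]
        refine (ENNReal.ofReal_le_ofReal h6).trans ?_
        rw [hFPh y hy]
        exact Ph_anti T (by linarith)
      exact (ENNReal.ofReal_le_iff_le_toReal hfx.ne).1 h5
    -- the measure term
    have hζμ : IntegrableOn ζ Ω μ := by
      refine Integrable.of_bound hζcont.aestronglyMeasurable Cζ ?_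
      filter_upwards [ae_restrict_mem hΩ.measurableSet] with y hy
      exact hCζ y (subset_closure hy)
    have hζσ : IntegrableOn ζ Ω σ := hζμ.mono_measure hσμ
    have h7 : ∫ y in Ω, ζ y ∂σ ≤ ∫ y in Ω, ζ y ∂μ := by
      refine integral_mono_measure (Measure.restrict_mono le_rfl hσμ) ?_ hζμ
      filter_upwards [ae_restrict_mem hΩ.measurableSet] with y hy
      exact hζnn y hy
    have h80 : 0 ≤ ∫ y in Ω, ζ y ∂σ := setIntegral_nonneg hΩ.measurableSet hζnn
    have h8 : (Pd T d σ x).toReal ≤ (∫ y in Ω, ζ y ∂σ) + (Ph N T (r ^ 2) * σ univ).toReal := by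
      have h9 : Pd T d σ x ≤ ENNReal.ofReal (∫ y in Ω, ζ y ∂σ) + Ph N T (r ^ 2) * σ univ := by
        rw [ofReal_integral_eq_lintegral_ofReal hζσ (by
          filter_upwards [ae_restrict_mem hΩ.measurableSet] with y hy
          exact hζnn y hy)]
        have h10 : σ.restrict Ω = σ := by
          rw [Measure.restrict_eq_self_of_ae_mem]
          rw [ae_iff]; exact hσΩ
        rw [h10, ← lintegral_const (μ := σ), ← lintegral_add_right _ measurable_const]
        refine lintegral_mono_ae ?_
        have h11 : ∀ᵐ y ∂σ, y ∈ Ω := by rw [ae_iff]; exact hσΩ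
        filter_upwards [h11] with y hy
        by_cases hyc : y ∈ cthickening (2 * r) K₀
        · have h12 : χ y = 1 := (hχ2 y hyc).eq_of_nhds
          rw [← hFPh y hy, hζ]
          simp only [h12, one_mul]
          exact le_self_add
        · refine le_trans ?_ le_add_self
          refine Ph_anti T ?_
          have := hfar y hyc
          nlinarith
      have h13 : ENNReal.ofReal (∫ y in Ω, ζ y ∂σ) + Ph N T (r ^ 2) * σ univ ≠ ⊤ :=
        ENNReal.add_ne_top.2 ⟨ENNReal.ofReal_ne_top,
          ENNReal.mul_ne_top (Ph_lt_top hr2).ne (measure_ne_top _ _)⟩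
      refine (ENNReal.toReal_mono h13 h9).trans ?_
      rw [ENNReal.toReal_add ENNReal.ofReal_ne_top
        (ENNReal.mul_ne_top (Ph_lt_top hr2).ne (measure_ne_top _ _)), ENNReal.toReal_ofReal h80]
    rw [h1, h2] at hid
    rw [hC]
    linarith)
  filter_upwards [hmain] with x hx hxU
  have h1 := hx hxU
  have hxΩ : x ∈ Ω := hK (hsubset hxU)
  have h2 : v x = u x := by
    rw [hv, indicator_of_mem hxΩ, (hχ2 x (hsubset hxU)).eq_of_nhds, mul_one]
  rwa [h2] at h1

end Pool.Agent.R216.VPD
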