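import Pool.Agent.R216.VPD.Whit

/-! Whitney averaging: the main comparison and the integration step. -/

namespace Pool.Agent.R216.VPD

open MeasureTheory Set Metric Filter Topology
open scoped ENNReal

variable {N : ℕ}

/-- the constant of the near part -/
noncomputable def c1 (N : ℕ) (η : ℝ) : ℝ := 32 * 28 ^ N / (588 * η ^ N)

theorem w_sq {a : ℝ} (ha : 0 < a) : w N (a ^ 2) = ENNReal.ofReal ((a ^ N)⁻¹) := by
  unfold w
  congr 1
  rw [← Real.rpow_natCast a 2, ← Real.rpow_mul ha.le, ← Real.rpow_natCast a N,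
    ← Real.rpow_neg ha.le]
  congr 1
  push_cast
  ring

theorem half_good {x x₀ : E N} {T d η r₀ : ℝ} (hd : 0 < d) (hη : 0 < η) (hη1 : η ≤ 1)
    (hx : dist x x₀ ≤ d) (hT : (28 * d) ^ 2 ≤ T) (hdr : 6 * d ≤ r₀)
    (σ f : Measure (E N)) [IsFiniteMeasure σ] [IsFiniteMeasure f]
    {ε : ℝ≥0∞} (hε : ε ≠ 0) (hε' : ε ≠ ∞)
    (hgood : ∀ r, 0 < r → r ≤ r₀ → f (closedBall x₀ r) ≤ ε * σ (closedBall x₀ (2 * r))) :
    volume (ball x (η * d) ∩
        {z | ε * ENNReal.ofReal (c1 N η) * Pot T σ z < Pot (16 * d ^ 2) f z})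
      ≤ volume (ball x (η * d)) / 2 := by
  have hηd : 0 < η * d := by positivity
  set s := σ (closedBall x₀ (12 * d)) with hs
  have hfs : f (closedBall x₀ (6 * d)) ≤ ε * s := by
    have := hgood (6 * d) (by positivity) hdr
    rwa [show 2 * (6 * d) = 12 * d by ring] at this
  have hJ : ∫⁻ z in ball x (η * d), Pot (16 * d ^ 2) f z
      ≤ ε * s * (om N * ENNReal.ofReal (16 * d ^ 2)) :=
    (near_avg hd hη hη1 hx f).trans (mul_le_mul' hfs le_rfl)
  have hmeas : Measurable (Pot (16 * d ^ 2) f) := measurable_Pot _ f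
  by_cases hs0 : s = 0
  · rw [hs0, mul_zero, zero_mul] at hJ
    have h1 : ∫⁻ z in ball x (η * d), Pot (16 * d ^ 2) f z = 0 := le_antisymm hJ (by simp)
    rw [lintegral_eq_zero_iff hmeas] at h1
    have h2 : ∀ᵐ z, z ∈ ball x (η * d) → Pot (16 * d ^ 2) f z = 0 := by
      rw [← ae_restrict_iff' measurableSet_ball]; exact h1
    have h3 : volume (ball x (η * d) ∩
        {z | ε * ENNReal.ofReal (c1 N η) * Pot T σ z < Pot (16 * d ^ 2) f z}) = 0 := by
      refine measure_mono_null ?_ (ae_iff.1 h2)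
      rintro z ⟨hz1, hz2⟩
      simp only [mem_setOf_eq, Classical.not_imp] at hz2 ⊢
      exact ⟨hz1, fun h => by rw [h] at hz2; simp at hz2⟩
    rw [h3]; simp
  · set L := ENNReal.ofReal (588 * d ^ 2) * w N ((28 * d) ^ 2) * s with hL
    set c := ε * ENNReal.ofReal (c1 N η) with hc
    have hc1 : 0 < c1 N η := by unfold c1; positivity
    have hL0 : L ≠ 0 := by
      rw [hL, w_sq (by positivity)]
      refine mul_ne_zero (mul_ne_zero ?_ ?_) hs0
      · simp only [ne_eq, ENNReal.ofReal_eq_zero, not_le]; positivity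
      · simp only [ne_eq, ENNReal.ofReal_eq_zero, not_le]; positivity
    have hLt : L ≠ ∞ := by
      rw [hL, w_sq (by positivity)]
      exact ENNReal.mul_ne_top (ENNReal.mul_ne_top ENNReal.ofReal_ne_top ENNReal.ofReal_ne_top)
        (measure_ne_top _ _)
    have hc0 : c ≠ 0 := by
      rw [hc]
      refine mul_ne_zero hε ?_
      simp only [ne_eq, ENNReal.ofReal_eq_zero, not_le]; exact hc1
    have hct : c ≠ ∞ := ENNReal.mul_ne_top hε' ENNReal.ofReal_ne_top
    have hsub : ball x (η * d) ∩ {z | c * Pot T σ z < Pot (16 * d ^ 2) f z}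
        ⊆ ball x (η * d) ∩ {z | c * L ≤ Pot (16 * d ^ 2) f z} := by
      rintro z ⟨hz1, hz2⟩
      refine ⟨hz1, ?_⟩
      have hzx : dist z x₀ ≤ 2 * d := by
        rw [mem_ball] at hz1
        have := dist_triangle z x x₀
        nlinarith
      have h1 := mass_le hd hT hzx σ
      exact (mul_le_mul' le_rfl h1).trans (le_of_lt hz2)
    have hmk := mul_meas_ge_le_lintegral₀ (μ := volume.restrict (ball x (η * d)))
      hmeas.aemeasurable (c * L)
    have h2 : volume (ball x (η * d) ∩ {z | c * L ≤ Pot (16 * d ^ 2) f z})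
        ≤ (volume.restrict (ball x (η * d))) {z | c * L ≤ Pot (16 * d ^ 2) f z} := by
      rw [inter_comm]
      exact Measure.le_restrict_apply _ _
    have hkey : ε * s * (om N * ENNReal.ofReal (16 * d ^ 2))
        = c * L * (volume (ball x (η * d)) / 2) := by
      rw [vol_ball x hηd, hL, hc, w_sq (by positivity), ENNReal.div_eq_inv_mul,
        show (2 : ℝ≥0∞)⁻¹ = ENNReal.ofReal (1 / 2) by
          rw [ENNReal.ofReal_div_of_pos (by norm_num)]; simp]
      have h3 : ENNReal.ofReal (16 * d ^ 2)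
          = ENNReal.ofReal (c1 N η) * ENNReal.ofReal (588 * d ^ 2)
            * ENNReal.ofReal (((28 * d) ^ N)⁻¹) * ENNReal.ofReal (1 / 2)
            * ENNReal.ofReal ((η * d) ^ N) := by
        rw [← ENNReal.ofReal_mul (by positivity), ← ENNReal.ofReal_mul (by positivity),
          ← ENNReal.ofReal_mul (by positivity), ← ENNReal.ofReal_mul (by positivity)]
        congr 1
        unfold c1
        rw [mul_pow, mul_pow]
        field_simp
        ring
      rw [h3]; ring
    have h4 : c * L * volume (ball x (η * d) ∩ {z | c * L ≤ Pot (16 * d ^ 2) f z})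
        ≤ c * L * (volume (ball x (η * d)) / 2) := by
      rw [← hkey]
      exact ((mul_le_mul' le_rfl h2).trans hmk).trans hJ
    have h5 := (ENNReal.mul_le_mul_iff_right (mul_ne_zero hc0 hL0)
      (ENNReal.mul_ne_top hct hLt)).1 h4
    exact (measure_mono hsub).trans h5

/-- the main comparison -/
theorem main_cmp {K₀ : Set (E N)} (hK : IsCompact K₀) (hKne : K₀.Nonempty)
    {T η r₀ ρ τ c C : ℝ} (hT : 0 < T) (hη : 0 < η) (hη1 : η ≤ 1) (hr₀ : 0 < r₀) (hρ : 0 < ρ)
    (hτ0 : 0 ≤ τ) (hτ : τ ≤ 1)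
    (σ f : Measure (E N)) [IsFiniteMeasure σ] [IsFiniteMeasure f]
    {ε : ℝ≥0∞} (hε : ε ≠ 0) (hε' : ε ≠ ∞)
    (hετ : ε * ENNReal.ofReal (c1 N η) + ε * ENNReal.ofReal (16 ^ ((N : ℝ) / 2 - 1))
      ≤ ENNReal.ofReal τ)
    (hgood : ∀ x ∈ K₀, ∀ r, 0 < r → r ≤ r₀ → f (closedBall x r) ≤ ε * σ (closedBall x (2 * r)))
    {u : E N → ℝ} (hu : ∀ᵐ x, x ∈ thickening ρ K₀ →
      (Pot T σ x).toReal ≤ c * u x + (Pot T f x).toReal + C) :
    ∃ C₅ d₀ : ℝ, 0 < d₀ ∧ ∀ x, 0 < infDist x K₀ → infDist x K₀ < d₀ →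
      volume (ball x (η * infDist x K₀) ∩
        {z | ¬ ((1 - τ) * (Pot T (σ.restrict K₀) x).toReal
          ≤ ((1 + η) ^ 2) ^ ((N : ℝ) / 2 - 1) * (c * u z + C₅))})
        ≤ volume (ball x (η * infDist x K₀)) / 2 := by
  set D3 : ℝ≥0∞ := ε * (ENNReal.ofReal (16 ^ ((N : ℝ) / 2 - 1))
      * (w N T * ENNReal.ofReal (16 * T) * σ univ))
      + w N ((2 * r₀ / 3) ^ 2) * f univ * ENNReal.ofReal T with hD3
  set D4 : ℝ≥0∞ := w N T * ENNReal.ofReal ((1 + η) ^ 2 * T) * (σ.restrict K₀) univ with hD4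
  have hwt : ∀ t, w N t ≠ ∞ := fun t => ENNReal.ofReal_ne_top
  have hD3t : D3 ≠ ∞ := by
    rw [hD3]
    refine ENNReal.add_ne_top.2 ⟨?_, ?_⟩
    · exact ENNReal.mul_ne_top hε' (ENNReal.mul_ne_top ENNReal.ofReal_ne_top
        (ENNReal.mul_ne_top (ENNReal.mul_ne_top (hwt _) ENNReal.ofReal_ne_top) (measure_ne_top _ _)))
    · exact ENNReal.mul_ne_top (ENNReal.mul_ne_top (hwt _) (measure_ne_top _ _)) ENNReal.ofReal_ne_top
  have hD4t : D4 ≠ ∞ := ENNReal.mul_ne_top
    (ENNReal.mul_ne_top (hwt _) ENNReal.ofReal_ne_top) (measure_ne_top _ _)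
  refine ⟨D3.toReal + C + D4.toReal, min (r₀ / 6) (min (√T / 28) (ρ / 2)), by positivity, ?_⟩
  intro x hx0 hxd
  set d := infDist x K₀ with hd
  have hd1 : 6 * d ≤ r₀ := by
    have := hxd.le.trans (min_le_left _ _); linarith
  have hd2 : 28 * d ≤ √T := by
    have := hxd.le.trans ((min_le_right _ _).trans (min_le_left _ _)); linarith
  have hd3 : 2 * d < ρ := by
    have := hxd.trans_le ((min_le_right _ _).trans (min_le_right _ _)); linarith
  have hd2' : (28 * d) ^ 2 ≤ T := by
    have := pow_le_pow_left₀ (by positivity) hd2 2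
    rwa [Real.sq_sqrt hT.le] at this
  obtain ⟨x₀, hx₀K, hx₀⟩ := hK.exists_infDist_eq_dist hKne x
  have hxx₀ : dist x x₀ ≤ d := by rw [← hx₀]
  have hhalf := half_good (T := T) hx0 hη hη1 hxx₀ hd2' hd1 σ f hε hε' (hgood x₀ hx₀K)
  refine le_trans (measure_mono_ae ?_) hhalf
  filter_upwards [hu, Pot_ae_lt_top T σ, Pot_ae_lt_top T f] with z hz1 hz2 hz3
  intro hz
  obtain ⟨hzB, hzn⟩ := hz
  refine ⟨hzB, ?_⟩
  by_contra hcon
  apply hzn
  have hcon2 : Pot (16 * d ^ 2) f z ≤ ε * ENNReal.ofReal (c1 N η) * Pot T σ z := not_lt.1 hcon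
  have hzB' : dist z x < η * d := hzB
  have hzx₀ : dist z x₀ ≤ 2 * d := by
    have := dist_triangle z x x₀
    nlinarith
  have hzU : z ∈ thickening ρ K₀ :=
    mem_thickening_iff.2 ⟨x₀, hx₀K, lt_of_le_of_lt hzx₀ hd3⟩
  have h1 := hz1 hzU
  have h2 := far_part hT hx0 hr₀ hzx₀ σ f (hgood x₀ hx₀K)
  have h3 : Pot T f z ≤ ENNReal.ofReal τ * Pot T σ z + D3 := by
    calc Pot T f z ≤ _ := h2
      _ ≤ ε * ENNReal.ofReal (c1 N η) * Pot T σ z
          + ε * (ENNReal.ofReal (16 ^ ((N : ℝ) / 2 - 1))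
            * (Pot T σ z + w N T * ENNReal.ofReal (16 * T) * σ univ))
          + w N ((2 * r₀ / 3) ^ 2) * f univ * ENNReal.ofReal T :=
          add_le_add (add_le_add hcon2 le_rfl) le_rfl
      _ = (ε * ENNReal.ofReal (c1 N η) + ε * ENNReal.ofReal (16 ^ ((N : ℝ) / 2 - 1)))
            * Pot T σ z + D3 := by rw [hD3]; ring
      _ ≤ _ := add_le_add (mul_le_mul' hετ le_rfl) le_rfl
  have h4 : (Pot T f z).toReal ≤ τ * (Pot T σ z).toReal + D3.toReal := by
    have h5 : ENNReal.ofReal τ * Pot T σ z + D3 ≠ ∞ :=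
      ENNReal.add_ne_top.2 ⟨ENNReal.mul_ne_top ENNReal.ofReal_ne_top hz2.ne, hD3t⟩
    refine (ENNReal.toReal_mono h5 h3).trans ?_
    rw [ENNReal.toReal_add (ENNReal.mul_ne_top ENNReal.ofReal_ne_top hz2.ne) hD3t,
      ENNReal.toReal_mul, ENNReal.toReal_ofReal hτ0]
  have h6 := compare (x := x) (z := z) (T := T) (d := d) hT hη (fun y hy => infDist_le_dist_of_mem hy)
    hzB'.le σ hK.measurableSet
  have h7 : Pot T (σ.restrict K₀) x ≤ ENNReal.ofReal (((1 + η) ^ 2) ^ ((N : ℝ) / 2 - 1))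
      * (Pot T σ z + D4) := by
    refine h6.trans (mul_le_mul' le_rfl (add_le_add (Pot_mono Measure.restrict_le_self z) le_rfl))
  set B : ℝ := ((1 + η) ^ 2) ^ ((N : ℝ) / 2 - 1) with hB
  have hB0 : 0 ≤ B := by positivity
  have h8 : (Pot T (σ.restrict K₀) x).toReal ≤ B * ((Pot T σ z).toReal + D4.toReal) := by
    have h9 : ENNReal.ofReal B * (Pot T σ z + D4) ≠ ∞ :=
      ENNReal.mul_ne_top ENNReal.ofReal_ne_top (ENNReal.add_ne_top.2 ⟨hz2.ne, hD4t⟩)
    refine (ENNReal.toReal_mono h9 h7).trans ?_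
    rw [ENNReal.toReal_mul, ENNReal.toReal_ofReal hB0, ENNReal.toReal_add hz2.ne hD4t]
  have h10 : (0 : ℝ) ≤ D4.toReal := ENNReal.toReal_nonneg
  have h11 : (0 : ℝ) ≤ 1 - τ := by linarith
  calc (1 - τ) * (Pot T (σ.restrict K₀) x).toReal
      ≤ (1 - τ) * (B * ((Pot T σ z).toReal + D4.toReal)) := mul_le_mul_of_nonneg_left h8 h11
    _ = B * ((1 - τ) * (Pot T σ z).toReal + (1 - τ) * D4.toReal) := by ring
    _ ≤ B * (c * u z + (D3.toReal + C + D4.toReal)) := by
        refine mul_le_mul_of_nonneg_left ?_ hB0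
        nlinarith

/-- the integration step -/
theorem whitney_int {K₀ : Set (E N)} {η : ℝ} (hη : 0 < η) (hη1 : η ≤ 1 / 2)
    (m : Measure (E N)) [IsFiniteMeasure m] :
    ∫⁻ x, (volume (ball x (η * infDist x K₀)))⁻¹ * m (ball x (η * infDist x K₀))
      ≤ 4 ^ N * m univ := by
  set A : Set (E N × E N) := {p | dist p.2 p.1 < η * infDist p.1 K₀} with hA
  have hAo : IsOpen A := isOpen_lt (by fun_prop)
    (continuous_const.mul ((continuous_infDist_pt K₀).comp continuous_fst))
  have hvol : ∀ x : E N, volume (ball x (η * infDist x K₀))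
      = ENNReal.ofReal ((η * infDist x K₀)) ^ N * om N ∨ infDist x K₀ = 0 := by
    intro x
    rcases eq_or_lt_of_le (infDist_nonneg (x := x) (s := K₀)) with h | h
    · exact Or.inr h.symm
    · left
      rw [vol_ball x (by positivity), ENNReal.ofReal_pow (by positivity)]
  set V : E N → ℝ≥0∞ := fun x => (ENNReal.ofReal ((η * infDist x K₀)) ^ N * om N)⁻¹ with hV
  have hVm : Measurable V := by
    refine Measurable.inv ?_
    refine Measurable.mul_const ?_ _
    refine Measurable.pow_const ?_ _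
    refine ENNReal.measurable_ofReal.comp ?_
    exact (continuous_const.mul (continuous_infDist_pt K₀)).measurable
  have h1 : ∀ x, (volume (ball x (η * infDist x K₀)))⁻¹ * m (ball x (η * infDist x K₀))
      = ∫⁻ z, A.indicator (fun p => V p.1) (x, z) ∂m := by
    intro x
    have h2 : ∀ z, A.indicator (fun p => V p.1) (x, z)
        = (ball x (η * infDist x K₀)).indicator (fun _ => V x) z := by
      intro z
      by_cases hz : dist z x < η * infDist x K₀
      · rw [indicator_of_mem (show (x, z) ∈ A from hz), indicator_of_mem (show z ∈ ball x _ from hz)]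
      · rw [indicator_of_notMem (show (x, z) ∉ A from hz),
          indicator_of_notMem (show z ∉ ball x _ from hz)]
    simp only [h2]
    rw [lintegral_indicator measurableSet_ball, setLIntegral_const]
    rcases hvol x with h | h
    · rw [h]
    · rw [h]; simp
  simp only [h1]
  rw [lintegral_lintegral_swap]
  · have h3 : ∀ z, ∫⁻ x, A.indicator (fun p => V p.1) (x, z) ≤ 4 ^ N := by
      intro z
      set a : ℝ := η * infDist z K₀ / 2 with ha
      have h4 : ∀ x, A.indicator (fun p => V p.1) (x, z)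
          ≤ (ball z (4 * a)).indicator (fun _ => (ENNReal.ofReal a ^ N * om N)⁻¹) x := by
        intro x
        by_cases hz : dist z x < η * infDist x K₀
        · rw [indicator_of_mem (show (x, z) ∈ A from hz)]
          have h5 : infDist z K₀ ≤ infDist x K₀ + dist z x := infDist_le_infDist_add_dist
          have h6 : infDist x K₀ ≤ infDist z K₀ + dist x z := infDist_le_infDist_add_dist
          rw [dist_comm x z] at h6
          have h0 : 0 ≤ infDist x K₀ := infDist_nonneg
          have h7 : infDist z K₀ ≤ 2 * infDist x K₀ := by nlinarith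
          have h8 : infDist x K₀ ≤ 2 * infDist z K₀ := by nlinarith
          have h9 : x ∈ ball z (4 * a) := by
            rw [mem_ball, dist_comm, ha]
            nlinarith
          rw [indicator_of_mem h9, hV]
          simp only
          rw [ENNReal.inv_le_inv]
          refine mul_le_mul' (pow_le_pow_left' (ENNReal.ofReal_le_ofReal ?_) N) le_rfl
          rw [ha]; nlinarith
        · rw [indicator_of_notMem (show (x, z) ∉ A from hz)]
          simp
      refine (lintegral_mono h4).trans ?_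
      rw [lintegral_indicator measurableSet_ball, setLIntegral_const]
      rcases le_or_gt a 0 with ha0 | ha0
      · rw [ball_eq_empty.2 (by linarith)]; simp
      · rw [vol_ball z (by positivity), ENNReal.ofReal_pow (by positivity),
          ENNReal.ofReal_mul (by norm_num), mul_pow]
        have h10 : ENNReal.ofReal a ^ N * om N ≠ 0 := by
          refine mul_ne_zero (pow_ne_zero _ ?_) om_pos.ne'
          simpa using ha0
        have h11 : ENNReal.ofReal a ^ N * om N ≠ ∞ :=
          ENNReal.mul_ne_top (ENNReal.pow_ne_top ENNReal.ofReal_ne_top) om_lt_top.ne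
        calc (ENNReal.ofReal a ^ N * om N)⁻¹
              * (ENNReal.ofReal 4 ^ N * ENNReal.ofReal a ^ N * om N)
            = ENNReal.ofReal 4 ^ N * ((ENNReal.ofReal a ^ N * om N)⁻¹
              * (ENNReal.ofReal a ^ N * om N)) := by ring
          _ = ENNReal.ofReal 4 ^ N := by rw [ENNReal.inv_mul_cancel h10 h11, mul_one]
          _ ≤ 4 ^ N := by simp
    refine (lintegral_mono h3).trans ?_
    rw [lintegral_const]
  · exact ((hVm.comp measurable_fst).indicator hAo.measurableSet).aemeasurable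

end Pool.Agent.R216.VPD
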