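import Pool.Agent.R216.VPD.Exist
import Pool.Agent.R216.VPD.Lower2
import Pool.Agent.R216.VPD.Bes
import Pool.Agent.R216.VPD.Whit2

/-! The approximation theorem. -/

namespace Pool.Agent.R216.VPD

open MeasureTheory Set Metric Filter Topology InnerProductSpace Laplacian
open scoped ENNReal

variable {N : ℕ}

theorem exists_T {Ω : Set (E N)} (hb : Bornology.IsBounded Ω) :
    ∃ T : ℝ, 0 < T ∧ ∀ x ∈ Ω, ∀ y ∈ Ω, ‖x - y‖ ^ 2 + 1 ≤ T := by
  obtain ⟨R, hR⟩ := hb.subset_closedBall (0 : E N)
  refine ⟨(2 * R) ^ 2 + 1, by positivity, ?_⟩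
  intro x hx y hy
  have h1 := hR hx
  have h2 := hR hy
  rw [mem_closedBall, dist_zero_right] at h1 h2
  have h3 : ‖x - y‖ ≤ 2 * R := (norm_sub_le x y).trans (by linarith)
  have := pow_le_pow_left₀ (norm_nonneg _) h3 2
  linarith

theorem exists_eta {θ : ℝ} (hθ1 : θ < 1) :
    ∃ η : ℝ, 0 < η ∧ η ≤ 1 / 2 ∧ θ * ((1 + η) ^ 2) ^ ((N : ℝ) / 2 - 1) < 1 := by
  have hlim : Tendsto (fun η : ℝ => θ * ((1 + η) ^ 2) ^ ((N : ℝ) / 2 - 1)) (𝓝[>] 0)
      (𝓝 (θ * ((1 + 0) ^ 2) ^ ((N : ℝ) / 2 - 1))) := by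
    refine Tendsto.const_mul _ ?_
    refine Tendsto.rpow_const ?_ (Or.inl (by norm_num))
    refine Tendsto.pow ?_ 2
    exact (tendsto_const_nhds.add tendsto_id).mono_left nhdsWithin_le_nhds
  have h1 : θ * ((1 + 0) ^ 2) ^ ((N : ℝ) / 2 - 1) < 1 := by simpa using hθ1
  have h2 := hlim.eventually_lt_const h1
  have h3 : ∀ᶠ η : ℝ in 𝓝[>] 0, η ≤ 1 / 2 := by
    refine nhdsWithin_le_nhds ?_
    filter_upwards [Iio_mem_nhds (show (0 : ℝ) < 1 / 2 by norm_num)] with η hη
    exact hη.le
  have h4 : ∀ᶠ η : ℝ in 𝓝[>] 0, 0 < η := self_mem_nhdsWithin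
  obtain ⟨η, ha, hb, hc⟩ := (h2.and (h3.and h4)).exists
  exact ⟨η, hc, hb, ha⟩

theorem g_nonneg {g : ℝ → ℝ} (hgc : Continuous g) (hgs : ∀ t, 0 ≤ g t * t) {t : ℝ} (ht : 0 ≤ t) :
    0 ≤ g t := by
  have h1 : Ioi (0 : ℝ) ⊆ {t | 0 ≤ g t} := by
    intro s hs
    exact nonneg_of_mul_nonneg_left (hgs s) hs
  have h2 : IsClosed {t | 0 ≤ g t} := isClosed_le continuous_const hgc
  have h3 := closure_minimal h1 h2
  rw [closure_Ioi] at h3
  exact h3 ht

theorem exists_trunc {h : E N → ℝ≥0∞} (hm : Measurable h) (hfin : ∫⁻ x, h x ≠ ∞) {ε₀ : ℝ≥0∞}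
    (hε₀ : ε₀ ≠ 0) : ∃ k : ℕ, ∫⁻ x, h x ≤ (∫⁻ x, min (h x) k) + ε₀ := by
  have hlim : Tendsto (fun k : ℕ => ∫⁻ x, min (h x) k) atTop (𝓝 (∫⁻ x, h x)) := by
    refine lintegral_tendsto_of_tendsto_of_monotone ?_ ?_ ?_
    · intro k
      exact (hm.min measurable_const).aemeasurable
    · refine Eventually.of_forall fun x => ?_
      intro a b hab
      exact min_le_min le_rfl (by exact_mod_cast hab)
    · refine Eventually.of_forall fun x => ?_
      have : Tendsto (fun k : ℕ => min (h x) (k : ℝ≥0∞)) atTop (𝓝 (min (h x) ∞)) :=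
        tendsto_const_nhds.min ENNReal.tendsto_nat_nhds_top
      simpa using this
  have h2 : Tendsto (fun k : ℕ => (∫⁻ x, min (h x) k) + ε₀) atTop (𝓝 ((∫⁻ x, h x) + ε₀)) :=
    hlim.add tendsto_const_nhds
  obtain ⟨k, hk⟩ := (h2.eventually_const_lt (ENNReal.lt_add_right hfin hε₀)).exists
  exact ⟨k, hk.le⟩

theorem step {Ω : Set (E N)} (hN : 0 < N) (hΩ : IsOpen Ω) (hb : Bornology.IsBounded Ω)
    {g : ℝ → ℝ} (hgc : Continuous g) (hgm : Monotone g) (hgs : ∀ t, 0 ≤ g t * t)
    (μ : Measure (E N)) [IsFiniteMeasure μ] (hμ : μ Ωᶜ = 0) {u : E N → ℝ}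
    (hu : SolvesNonlinear g Ω μ u) {θ : ℝ} (hθ0 : 0 < θ) (hθ1 : θ < 1) {ε₀ : ℝ≥0∞}
    (hε₀ : ε₀ ≠ 0) :
    ∃ ν : Measure (E N), ν ≤ μ ∧ VPlus g Ω ν ∧
      μ univ ≤ ν univ + ENNReal.ofReal (1 - θ) * μ univ + ε₀ + ε₀ := by
  obtain ⟨T, hT0, hT⟩ := exists_T hb
  have hc := cN_pos hN
  set σ := μ.singularPart volume with hσ
  set h := μ.rnDeriv volume with hh
  have hdec : μ = σ + volume.withDensity h := Measure.haveLebesgueDecomposition_add μ volume
  have hσμ : σ ≤ μ := Measure.singularPart_le μ volume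
  have hhμ : volume.withDensity h ≤ μ := Measure.withDensity_rnDeriv_le μ volume
  have hhm : Measurable h := Measure.measurable_rnDeriv μ volume
  have hσfin : IsFiniteMeasure σ := isFiniteMeasure_of_le μ hσμ
  have hσΩ : σ Ωᶜ = 0 := le_antisymm ((hσμ _).trans hμ.le) (by simp)
  obtain ⟨η, hη0, hη1, hηθ⟩ := exists_eta (N := N) hθ1
  set B : ℝ := ((1 + η) ^ 2) ^ ((N : ℝ) / 2 - 1) with hB
  have hB0 : 0 < B := by positivity
  set τ : ℝ := (1 - θ * B) / 2 with hτ
  have hτ0 : 0 < τ := by rw [hτ]; linarith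
  have hθB : 0 < θ * B := mul_pos hθ0 hB0
  have hτ1 : τ ≤ 1 := by rw [hτ]; linarith
  have hκ : θ * B < 1 - τ := by rw [hτ]; linarith
  have hc1 : 0 < c1 N η := by unfold c1; positivity
  have h16 : (0 : ℝ) < 16 ^ ((N : ℝ) / 2 - 1) := by positivity
  set e : ℝ := τ / (c1 N η + 16 ^ ((N : ℝ) / 2 - 1)) with he
  have he0 : 0 < e := by positivity
  have hfin := gm_finite hu.2.1
  set f := gm g Ω u with hf
  have hfac : f ≪ volume := by
    rw [hf]; unfold gm
    exact (withDensity_absolutelyContinuous _ _).trans Measure.restrict_le_self.absolutelyContinuous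
  obtain ⟨K₀, hKc, hKΩ, hK0, hσK, r₀, hr₀, hgood⟩ := good_set hΩ σ f
    (Measure.mutuallySingular_singularPart μ volume) hfac hσΩ (ε := ENNReal.ofReal e)
    (by simpa using he0) ENNReal.ofReal_ne_top hε₀
  obtain ⟨δ, hδ, hKδ⟩ := hKc.exists_cthickening_subset_open hΩ hKΩ
  obtain ⟨C, hC0, hC⟩ := lower_bound hT0 hT hΩ hb μ σ hμ hσμ hu (K₀ := K₀) (r := δ / 2)
    (by positivity) (by rw [show 2 * (δ / 2) = δ by ring]; exact hKδ)
  have hhfin : ∫⁻ x, h x ≠ ∞ := by
    have h1 : ∫⁻ x, h x = (volume.withDensity h) univ := by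
      rw [withDensity_apply _ MeasurableSet.univ, Measure.restrict_univ]
    rw [h1]
    exact ((hhμ univ).trans_lt (measure_lt_top _ _)).ne
  obtain ⟨k, hk⟩ := exists_trunc hhm hhfin hε₀
  set σ₀ := σ.restrict K₀ with hσ₀
  set hk' : E N → ℝ≥0∞ := fun x => min (h x) k with hhk
  set ν : Measure (E N) := ENNReal.ofReal θ • σ₀ + volume.withDensity hk' with hν
  have hν1 : ENNReal.ofReal θ • σ₀ ≤ σ := by
    refine Measure.le_iff'.2 fun s => ?_
    rw [Measure.smul_apply, smul_eq_mul]
    calc ENNReal.ofReal θ * σ₀ s ≤ 1 * σ s := by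
          refine mul_le_mul' ?_ (Measure.restrict_le_self s)
          rw [← ENNReal.ofReal_one]
          exact ENNReal.ofReal_le_ofReal hθ1.le
      _ = σ s := one_mul _
  have hν2 : volume.withDensity hk' ≤ volume.withDensity h :=
    withDensity_mono (Eventually.of_forall fun x => min_le_left _ _)
  have hνμ : ν ≤ μ := by
    rw [hdec, hν]
    exact add_le_add hν1 hν2
  have hνfin : IsFiniteMeasure ν := isFiniteMeasure_of_le μ hνμ
  have hνΩ : ν Ωᶜ = 0 := le_antisymm ((hνμ _).trans hμ.le) (by simp)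
  obtain ⟨u', hu', hbd⟩ := exists_linear hN hT0 hT hΩ hb ν hνΩ
  have hPotν : ∀ x, Pot T ν x ≤ ENNReal.ofReal θ * Pot T σ₀ x + k * (om N * ENNReal.ofReal T) := by
    intro x
    have hmPh : Measurable (fun y : E N => Ph N T (‖x - y‖ ^ 2)) :=
      (measurable_Ph T).comp (by fun_prop)
    rw [Pot_eq, Pot_eq, hν, lintegral_add_measure, lintegral_smul_measure, smul_eq_mul]
    refine add_le_add le_rfl ?_
    rw [lintegral_withDensity_eq_lintegral_mul _ (hhm.min measurable_const) hmPh, ← Pot_vol T x,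
      Pot_eq, ← lintegral_const_mul _ hmPh]
    refine lintegral_mono fun y => ?_
    rw [Pi.mul_apply]
    exact mul_le_mul' (min_le_right _ _) le_rfl
  refine ⟨ν, hνμ, ⟨hνfin, hνΩ, u', hu', ?_, ?_⟩, ?_⟩
  · exact hgc.comp_aestronglyMeasurable hu'.1.1
  · -- finiteness of the integral
    have hnn : ∀ᵐ x ∂(volume.restrict Ω), 0 ≤ g (u' x) := by
      filter_upwards [hbd] with x hx using g_nonneg hgc hgs hx.1
    have hconv : ∫⁻ x in Ω, ‖g (u' x)‖ₑ = ∫⁻ x in Ω, ENNReal.ofReal (g (u' x)) := by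
      refine lintegral_congr_ae ?_
      filter_upwards [hnn] with x hx
      exact Real.enorm_of_nonneg hx
    have hgoal : ∃ K₁ : ℝ≥0∞, K₁ ≠ ∞ ∧ ∀ᵐ x ∂(volume.restrict Ω), ENNReal.ofReal (g (u' x))
        ≤ K₁ + 2 * ((volume (ball x (η * infDist x K₀)))⁻¹ * f (ball x (η * infDist x K₀))) := by
      set C6 : ℝ := ((k : ℝ≥0∞) * (om N * ENNReal.ofReal T)).toReal with hC6
      have hkt : (k : ℝ≥0∞) * (om N * ENNReal.ofReal T) ≠ ∞ :=
        ENNReal.mul_ne_top (ENNReal.natCast_ne_top k)
          (ENNReal.mul_ne_top om_lt_top.ne ENNReal.ofReal_ne_top)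
      have hC60 : 0 ≤ C6 := ENNReal.toReal_nonneg
      -- general upper bound
      have hup : ∀ᵐ x ∂(volume.restrict Ω), 0 ≤ u' x ∧
          cN N * u' x ≤ θ * (Pot T σ₀ x).toReal + C6 := by
        filter_upwards [hbd, ae_restrict_of_ae (Pot_ae_lt_top T σ₀)] with x hx1 hx2
        refine ⟨hx1.1, ?_⟩
        have h1 := hx1.2.trans (hPotν x)
        have h2 : ENNReal.ofReal θ * Pot T σ₀ x + k * (om N * ENNReal.ofReal T) ≠ ∞ :=
          ENNReal.add_ne_top.2 ⟨ENNReal.mul_ne_top ENNReal.ofReal_ne_top hx2.ne, hkt⟩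
        have h3 := (ENNReal.ofReal_le_iff_le_toReal h2).1 h1
        rwa [ENNReal.toReal_add (ENNReal.mul_ne_top ENNReal.ofReal_ne_top hx2.ne) hkt,
          ENNReal.toReal_mul, ENNReal.toReal_ofReal hθ0.le] at h3
      have hKn : ∀ᵐ x ∂(volume.restrict Ω), x ∉ K₀ :=
        ae_restrict_of_ae (measure_eq_zero_iff_ae_notMem.1 hK0)
      by_cases hne : K₀.Nonempty
      · obtain ⟨C₅, d₀, hd₀, hcmp⟩ := main_cmp (c := cN N) (C := C) hKc hne hT0 hη0
          (by linarith) hr₀ (show 0 < δ / 2 by positivity) hτ0.le hτ1 σ f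
          (ε := ENNReal.ofReal e) (by simpa using he0) ENNReal.ofReal_ne_top (by
            rw [← ENNReal.ofReal_mul he0.le, ← ENNReal.ofReal_mul he0.le,
              ← ENNReal.ofReal_add (by positivity) (by positivity)]
            refine ENNReal.ofReal_le_ofReal ?_
            rw [he, ← mul_add]
            rw [div_mul_cancel₀ _ (by positivity)]) hgood hC
        set d₁ : ℝ := min d₀ (δ / 2) with hd₁
        have hd₁0 : 0 < d₁ := lt_min hd₀ (by positivity)
        set Dc : ℝ := (Ph N T (d₁ ^ 2) * σ₀ univ).toReal with hDc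
        have hDt : Ph N T (d₁ ^ 2) * σ₀ univ ≠ ∞ :=
          ENNReal.mul_ne_top (Ph_lt_top (by positivity)).ne (measure_ne_top _ _)
        set κ : ℝ := (1 - τ) / B - θ with hκd
        have hκ0 : 0 < κ := by
          rw [hκd, sub_pos, lt_div_iff₀ hB0]; exact hκ
        set M₀ : ℝ := (C₅ + C6) / κ with hM₀
        set M : ℝ := (cN N)⁻¹ * (θ * max Dc M₀ + C6) with hM
        refine ⟨ENNReal.ofReal (g M), ENNReal.ofReal_ne_top, ?_⟩
        filter_upwards [hup, hKn, ae_restrict_mem hΩ.measurableSet] with x hx1 hx2 hxΩ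
        obtain ⟨hu0, hcu⟩ := hx1
        by_cases hbig : (Pot T σ₀ x).toReal ≤ max Dc M₀
        · refine le_trans ?_ le_self_add
          refine ENNReal.ofReal_le_ofReal (hgm ?_)
          rw [hM, inv_mul_eq_div, le_div_iff₀ hc]
          have := mul_le_mul_of_nonneg_left hbig hθ0.le
          linarith
        · push Not at hbig
          have hb1 : Dc < (Pot T σ₀ x).toReal := lt_of_le_of_lt (le_max_left _ _) hbig
          have hb2 : M₀ < (Pot T σ₀ x).toReal := lt_of_le_of_lt (le_max_right _ _) hbig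
          have hpos : 0 < infDist x K₀ := (hKc.isClosed.notMem_iff_infDist_pos hne).1 hx2
          have hlt : infDist x K₀ < d₁ := by
            by_contra hcon
            push Not at hcon
            have h1 : σ₀ (ball x d₁) = 0 := by
              rw [hσ₀, Measure.restrict_apply measurableSet_ball]
              have : ball x d₁ ∩ K₀ = ∅ := by
                ext y
                simp only [mem_inter_iff, mem_ball, mem_empty_iff_false, iff_false, not_and]
                intro hy hyK
                have := infDist_le_dist_of_mem (x := x) hyK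
                rw [dist_comm] at hy
                linarith
              rw [this]; simp
            have h2 := Pot_le_far (T := T) hd₁0 h1
            have h3 := ENNReal.toReal_mono hDt h2
            linarith
          set Bx := ball x (η * infDist x K₀) with hBx
          have hBpos : 0 < volume Bx := measure_ball_pos _ _ (by positivity)
          have hBfin : volume Bx ≠ ∞ := measure_ball_lt_top.ne
          have hBΩ : Bx ⊆ Ω := by
            intro z hz
            apply hKδ
            rw [hBx, mem_ball] at hz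
            refine mem_cthickening_of_dist_le z _ δ K₀ (hKc.exists_infDist_eq_dist hne x).choose_spec.1 ?_
            have h1 := (hKc.exists_infDist_eq_dist hne x).choose_spec.2
            have h2 := dist_triangle z x (hKc.exists_infDist_eq_dist hne x).choose
            have h3 : d₁ ≤ δ / 2 := min_le_right _ _
            rw [← h1] at h2
            nlinarith
          have hhalf := hcmp x hpos (hlt.trans_le (min_le_left _ _))
          set Gd : Set (E N) := {z | (1 - τ) * (Pot T σ₀ x).toReal ≤ B * (cN N * u z + C₅)} with hGd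
          have hvol : volume Bx / 2 ≤ volume (Bx ∩ Gd) := by
            have h1 : volume Bx ≤ volume (Bx ∩ Gd) + volume Bx / 2 := by
              calc volume Bx ≤ volume ((Bx ∩ Gd) ∪ (Bx ∩ Gdᶜ)) := by
                    refine measure_mono ?_
                    rw [inter_union_compl]
                _ ≤ volume (Bx ∩ Gd) + volume (Bx ∩ Gdᶜ) := measure_union_le _ _
                _ ≤ _ := add_le_add le_rfl hhalf
            have h2 : volume Bx / 2 + volume Bx / 2 ≤ volume (Bx ∩ Gd) + volume Bx / 2 := by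
              rw [ENNReal.add_halves]; exact h1
            exact (ENNReal.add_le_add_iff_right (ENNReal.div_ne_top hBfin (by norm_num))).1 h2
          have hsub : Gd ⊆ {z | ENNReal.ofReal (g (u' x)) ≤ ENNReal.ofReal (g (u z))} := by
            intro z hz
            simp only [hGd, mem_setOf_eq] at hz ⊢
            refine ENNReal.ofReal_le_ofReal (hgm ?_)
            have h1 : (1 - τ) / B * (Pot T σ₀ x).toReal ≤ cN N * u z + C₅ := by
              rw [div_mul_eq_mul_div, div_le_iff₀ hB0]; linarith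
            have h2 : C₅ + C6 < κ * (Pot T σ₀ x).toReal := by
              rw [hM₀, div_lt_iff₀ hκ0] at hb2; linarith
            have h3 : κ * (Pot T σ₀ x).toReal
                = (1 - τ) / B * (Pot T σ₀ x).toReal - θ * (Pot T σ₀ x).toReal := by
              rw [hκd]; ring
            have h4 : cN N * u' x ≤ cN N * u z := by linarith
            exact le_of_mul_le_mul_left h4 hc
          have hmk := mul_meas_ge_le_lintegral₀ (μ := volume.restrict Bx)
            (f := fun z => ENNReal.ofReal (g (u z)))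
            (ENNReal.measurable_ofReal.comp_aemeasurable
              (hu.2.1.1.aemeasurable.mono_measure (Measure.restrict_mono hBΩ le_rfl)))
            (ENNReal.ofReal (g (u' x)))
          have h5 : volume (Bx ∩ Gd)
              ≤ (volume.restrict Bx) {z | ENNReal.ofReal (g (u' x)) ≤ ENNReal.ofReal (g (u z))} := by
            refine le_trans ?_ (Measure.le_restrict_apply _ _)
            refine measure_mono ?_
            rw [inter_comm]
            exact inter_subset_inter_left _ hsub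
          have h6 : ∫⁻ z in Bx, ENNReal.ofReal (g (u z)) = f Bx := by
            rw [hf]; unfold gm
            rw [withDensity_apply _ measurableSet_ball, Measure.restrict_restrict measurableSet_ball,
              inter_eq_left.2 hBΩ]
          have h7 : ENNReal.ofReal (g (u' x)) * (volume Bx / 2) ≤ f Bx := by
            rw [← h6]
            exact (mul_le_mul' le_rfl (hvol.trans h5)).trans hmk
          refine le_trans ?_ le_add_self
          have h8 : volume Bx / 2 ≠ 0 := (ENNReal.half_pos hBpos.ne').ne'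
          have h9 : volume Bx / 2 ≠ ∞ := ENNReal.div_ne_top hBfin (by norm_num)
          calc ENNReal.ofReal (g (u' x))
              = ENNReal.ofReal (g (u' x)) * (volume Bx / 2) * (volume Bx / 2)⁻¹ := by
                rw [mul_assoc, ENNReal.mul_inv_cancel h8 h9, mul_one]
            _ ≤ f Bx * (volume Bx / 2)⁻¹ := mul_le_mul' h7 le_rfl
            _ = 2 * ((volume Bx)⁻¹ * f Bx) := by
                rw [ENNReal.div_eq_inv_mul, ENNReal.mul_inv (Or.inl (by norm_num))
                  (Or.inl (by norm_num)), inv_inv]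
                ring
      · rw [not_nonempty_iff_eq_empty] at hne
        have hσ00 : σ₀ = 0 := by rw [hσ₀, hne, Measure.restrict_empty]
        refine ⟨ENNReal.ofReal (g ((cN N)⁻¹ * C6)), ENNReal.ofReal_ne_top, ?_⟩
        filter_upwards [hup] with x hx
        refine le_trans ?_ le_self_add
        refine ENNReal.ofReal_le_ofReal (hgm ?_)
        have h1 : Pot T σ₀ x = 0 := by
          rw [Pot_eq, hσ00]; simp
        have h2 := hx.2
        rw [h1] at h2
        simp only [ENNReal.toReal_zero, mul_zero, zero_add] at h2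
        rw [inv_mul_eq_div, le_div_iff₀ hc]; linarith
    obtain ⟨K₁, hK₁, hpt⟩ := hgoal
    show ∫⁻ x in Ω, ‖g (u' x)‖ₑ < ∞
    rw [hconv]
    calc ∫⁻ x in Ω, ENNReal.ofReal (g (u' x))
        ≤ ∫⁻ x in Ω, (K₁ + 2 * ((volume (ball x (η * infDist x K₀)))⁻¹
            * f (ball x (η * infDist x K₀)))) := lintegral_mono_ae hpt
      _ = K₁ * volume Ω + 2 * ∫⁻ x in Ω, ((volume (ball x (η * infDist x K₀)))⁻¹
            * f (ball x (η * infDist x K₀))) := by
          rw [lintegral_add_left measurable_const, setLIntegral_const,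
            lintegral_const_mul' _ _ (by norm_num)]
      _ ≤ K₁ * volume Ω + 2 * (4 ^ N * f univ) := by
          gcongr
          refine le_trans ?_ (whitney_int hη0 hη1 f (K₀ := K₀))
          exact setLIntegral_le_lintegral _ _
      _ < ∞ := by
          refine ENNReal.add_lt_top.2 ⟨?_, ?_⟩
          · exact ENNReal.mul_lt_top hK₁.lt_top hb.measure_lt_top
          · refine ENNReal.mul_lt_top (by norm_num) (ENNReal.mul_lt_top ?_ (measure_lt_top _ _))
            exact ENNReal.pow_lt_top (by norm_num)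
  · -- mass
    have h1 : μ univ = σ univ + ∫⁻ x, h x := by
      conv_lhs => rw [hdec]
      rw [Measure.add_apply, withDensity_apply _ MeasurableSet.univ, Measure.restrict_univ]
    have h2 : ν univ = ENNReal.ofReal θ * σ K₀ + ∫⁻ x, hk' x := by
      rw [hν, Measure.add_apply, Measure.smul_apply, withDensity_apply _ MeasurableSet.univ,
        Measure.restrict_univ, hσ₀, Measure.restrict_apply_univ, smul_eq_mul]
    have h3 : σ univ ≤ σ K₀ + ε₀ := by
      rw [← measure_add_measure_compl hKc.measurableSet]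
      exact add_le_add le_rfl hσK
    have h4 : σ K₀ = ENNReal.ofReal θ * σ K₀ + ENNReal.ofReal (1 - θ) * σ K₀ := by
      rw [← add_mul, ← ENNReal.ofReal_add hθ0.le (by linarith)]
      simp
    have h5 : σ K₀ ≤ μ univ := (measure_mono (subset_univ _)).trans (hσμ univ)
    calc μ univ = σ univ + ∫⁻ x, h x := h1
      _ ≤ (σ K₀ + ε₀) + ((∫⁻ x, hk' x) + ε₀) := add_le_add h3 hk
      _ = (ENNReal.ofReal θ * σ K₀ + ENNReal.ofReal (1 - θ) * σ K₀ + ε₀)
          + ((∫⁻ x, hk' x) + ε₀) := by rw [← h4]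
      _ = ν univ + ENNReal.ofReal (1 - θ) * σ K₀ + ε₀ + ε₀ := by rw [h2]; ring
      _ ≤ _ := by gcongr

end Pool.Agent.R216.VPD
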