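import Pool.Agent.R216.VPD.Ker

/-! Layer cake potentials. -/

namespace Pool.Agent.R216.VPD

open MeasureTheory Set Metric Filter Topology
open scoped ENNReal

variable {N : ℕ}

/-- weight -/
noncomputable def w (N : ℕ) (t : ℝ) : ℝ≥0∞ := ENNReal.ofReal (t ^ (-(N : ℝ) / 2))

/-- kernel as a function of the squared distance -/
noncomputable def Ph (N : ℕ) (T s : ℝ) : ℝ≥0∞ := ∫⁻ t in Ioo s T, w N t

/-- potential of a measure -/
noncomputable def Pot (T : ℝ) (ν : Measure (E N)) (x : E N) : ℝ≥0∞ :=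
  ∫⁻ t in Ioo 0 T, w N t * ν (ball x (√t))

theorem measurable_w : Measurable (w N) := by
  unfold w
  exact ENNReal.measurable_ofReal.comp (measurable_id.pow_const _)

theorem w_anti {s t : ℝ} (hs : 0 < s) (hst : s ≤ t) : w N t ≤ w N s := by
  unfold w
  refine ENNReal.ofReal_le_ofReal ?_
  exact Real.rpow_le_rpow_of_nonpos hs hst (by
    have : (0 : ℝ) ≤ N := Nat.cast_nonneg N
    linarith)

theorem Ph_anti (T : ℝ) : Antitone (Ph N T) := by
  intro s t hst
  exact lintegral_mono_set (Ioo_subset_Ioo_left hst)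

theorem measurable_Ph (T : ℝ) : Measurable (Ph N T) := (Ph_anti T).measurable

theorem Ph_lt_top {T s : ℝ} (hs : 0 < s) : Ph N T s < ∞ := by
  unfold Ph
  calc ∫⁻ t in Ioo s T, w N t ≤ ∫⁻ t in Ioo s T, w N s := by
        refine setLIntegral_mono measurable_const fun t ht => w_anti hs ht.1.le
    _ = w N s * volume (Ioo s T) := by rw [setLIntegral_const]
    _ < ∞ := by
        refine ENNReal.mul_lt_top ?_ ?_
        · exact ENNReal.ofReal_lt_top
        · simp

theorem measurable_ball (x : E N) : MeasurableSet {p : ℝ × E N | ‖x - p.2‖ ^ 2 < p.1} := by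
  apply IsOpen.measurableSet
  exact isOpen_lt (by fun_prop) (by fun_prop)

theorem mem_ball_iff {x y : E N} {t : ℝ} (ht : 0 < t) : y ∈ ball x (√t) ↔ ‖x - y‖ ^ 2 < t := by
  rw [mem_ball, dist_comm, dist_eq_norm, Real.lt_sqrt (norm_nonneg _)]

theorem Pot_eq (T : ℝ) (ν : Measure (E N)) [SFinite ν] (x : E N) :
    Pot T ν x = ∫⁻ y, Ph N T (‖x - y‖ ^ 2) ∂ν := by
  unfold Pot Ph
  have h1 : ∀ y : E N, ∫⁻ t in Ioo (‖x - y‖ ^ 2) T, w N t
      = ∫⁻ t in Ioo 0 T, w N t * ({p : ℝ × E N | ‖x - p.2‖ ^ 2 < p.1}.indicator 1 (t, y)) := by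
    intro y
    have h2 : Ioo (‖x - y‖ ^ 2) T = Ioo 0 T ∩ {t | ‖x - y‖ ^ 2 < t} := by
      ext t
      simp only [mem_Ioo, mem_inter_iff, mem_setOf_eq]
      constructor
      · rintro ⟨h, h'⟩
        exact ⟨⟨lt_of_le_of_lt (by positivity) h, h'⟩, h⟩
      · rintro ⟨⟨_, h'⟩, h⟩
        exact ⟨h, h'⟩
    have hms : MeasurableSet {t : ℝ | ‖x - y‖ ^ 2 < t} :=
      measurableSet_lt measurable_const measurable_id
    rw [h2, inter_comm, ← Measure.restrict_restrict hms, ← lintegral_indicator hms]
    refine lintegral_congr fun t => ?_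
    by_cases ht : ‖x - y‖ ^ 2 < t
    · rw [indicator_of_mem (by exact ht), indicator_of_mem (by exact ht)]; simp
    · rw [indicator_of_notMem (by exact ht), indicator_of_notMem (by exact ht)]; simp
  simp only [h1]
  rw [lintegral_lintegral_swap]
  · refine setLIntegral_congr_fun measurableSet_Ioo fun t ht => ?_
    have hmm : Measurable (fun y : E N =>
        ({p : ℝ × E N | ‖x - p.2‖ ^ 2 < p.1}.indicator (1 : ℝ × E N → ℝ≥0∞) (t, y))) :=
      (measurable_one.indicator (measurable_ball x)).comp measurable_prodMk_left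
    rw [lintegral_const_mul _ hmm]
    congr 1
    rw [← lintegral_indicator_one measurableSet_ball]
    refine lintegral_congr fun y => ?_
    by_cases hy : ‖x - y‖ ^ 2 < t
    · rw [indicator_of_mem ((mem_ball_iff ht.1).2 hy), indicator_of_mem (by exact hy)]
      simp
    · rw [indicator_of_notMem (fun h => hy ((mem_ball_iff ht.1).1 h)),
        indicator_of_notMem (by exact hy)]
  · refine Measurable.aemeasurable ?_
    refine Measurable.mul (measurable_w.comp measurable_snd) ?_
    exact ((measurable_one.indicator (measurable_ball x))).comp measurable_swap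

theorem measurable_Pot (T : ℝ) (ν : Measure (E N)) [SFinite ν] : Measurable (Pot T ν) := by
  have : Pot T ν = fun x => ∫⁻ y, Ph N T (‖x - y‖ ^ 2) ∂ν := by
    funext x; exact Pot_eq T ν x
  rw [this]
  apply Measurable.lintegral_prod_right'
    (f := fun p : E N × E N => Ph N T (‖p.1 - p.2‖ ^ 2))
  exact (measurable_Ph T).comp (by fun_prop)

theorem Pot_mono {T : ℝ} {ν ν' : Measure (E N)} (h : ν ≤ ν') (x : E N) :
    Pot T ν x ≤ Pot T ν' x :=
  lintegral_mono fun t => mul_le_mul_right (h _) _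

/-- far away from the support the potential is bounded -/
theorem Pot_le_far {T r : ℝ} {ν : Measure (E N)} [SFinite ν] {x : E N} (hr : 0 < r)
    (h : ν (ball x r) = 0) : Pot T ν x ≤ Ph N T (r ^ 2) * ν univ := by
  rw [Pot_eq, ← lintegral_const (μ := ν)]
  have h2 : ∀ᵐ y ∂ν, y ∉ ball x r := measure_eq_zero_iff_ae_notMem.1 h
  refine lintegral_mono_ae ?_
  filter_upwards [h2] with y hy
  apply Ph_anti
  rw [mem_ball, not_lt, dist_comm, dist_eq_norm] at hy
  gcongr

/-- volume of unit ball -/
noncomputable def om (N : ℕ) : ℝ≥0∞ := volume (ball (0 : E N) 1)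

theorem om_lt_top : om N < ∞ := measure_ball_lt_top

theorem om_pos : 0 < om N := measure_ball_pos _ _ one_pos

theorem vol_ball (x : E N) {r : ℝ} (hr : 0 < r) :
    volume (ball x r) = ENNReal.ofReal (r ^ N) * om N := by
  rw [Measure.addHaar_ball_of_pos _ _ hr]
  simp [om]

theorem w_vol (x : E N) {t : ℝ} (ht : 0 < t) : w N t * volume (ball x (√t)) = om N := by
  rw [vol_ball x (Real.sqrt_pos.2 ht), ← mul_assoc]
  unfold w
  rw [← ENNReal.ofReal_mul (by positivity)]
  have : t ^ (-(N : ℝ) / 2) * √t ^ N = 1 := by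
    rw [Real.sqrt_eq_rpow, ← Real.rpow_natCast, ← Real.rpow_mul ht.le, ← Real.rpow_add ht]
    ring_nf
    simp
  rw [this]; simp

theorem Pot_vol (T : ℝ) (x : E N) : Pot T (volume : Measure (E N)) x = om N * ENNReal.ofReal T := by
  unfold Pot
  rw [setLIntegral_congr_fun (g := fun _ => om N) measurableSet_Ioo
    (fun t ht => w_vol x ht.1)]
  rw [setLIntegral_const]
  simp

/-- total mass of the potential over the whole space -/
theorem lintegral_Pot (T : ℝ) (ν : Measure (E N)) [SFinite ν] :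
    ∫⁻ x, Pot T ν x = ν univ * (om N * ENNReal.ofReal T) := by
  simp only [Pot_eq]
  rw [lintegral_lintegral_swap]
  · have h : ∀ y : E N, ∫⁻ x, Ph N T (‖x - y‖ ^ 2) = om N * ENNReal.ofReal T := by
      intro y
      rw [← Pot_vol T y, Pot_eq]
      refine lintegral_congr fun x => ?_
      rw [norm_sub_rev]
    simp only [h]
    rw [lintegral_const, mul_comm]
  · exact ((measurable_Ph T).comp (by fun_prop)).aemeasurable

theorem Pot_ae_lt_top (T : ℝ) (ν : Measure (E N)) [IsFiniteMeasure ν] :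
    ∀ᵐ x, Pot T ν x < ∞ := by
  refine ae_lt_top (measurable_Pot T ν) ?_
  rw [lintegral_Pot]
  exact (ENNReal.mul_lt_top (measure_lt_top _ _)
    (ENNReal.mul_lt_top om_lt_top ENNReal.ofReal_lt_top)).ne

/-- scaling of radii -/
theorem Pot_scale {T b : ℝ} (hT : 0 < T) (hb : 1 ≤ b) (ν : Measure (E N)) [IsFiniteMeasure ν]
    (z : E N) :
    ∫⁻ t in Ioo 0 T, w N t * ν (ball z (√(b * t)))
      ≤ ENNReal.ofReal (b ^ ((N : ℝ) / 2 - 1))
        * (Pot T ν z + w N T * ENNReal.ofReal (b * T) * ν univ) := by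
  have hb0 : 0 < b := lt_of_lt_of_le one_pos hb
  set H : ℝ → ℝ≥0∞ := (Ioo 0 (b * T)).indicator (fun s => w N s * ν (ball z (√s))) with hH
  have h1 : ∫⁻ t in Ioo 0 T, w N t * ν (ball z (√(b * t)))
      = ENNReal.ofReal (b ^ ((N : ℝ) / 2)) * ∫⁻ t, H (b * t) := by
    rw [← lintegral_const_mul', ← lintegral_indicator measurableSet_Ioo]
    · refine lintegral_congr fun t => ?_
      by_cases ht : t ∈ Ioo 0 T
      · have ht2 : b * t ∈ Ioo 0 (b * T) := ⟨mul_pos hb0 ht.1, by
          exact mul_lt_mul_of_pos_left ht.2 hb0⟩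
        rw [indicator_of_mem ht, hH, indicator_of_mem ht2, ← mul_assoc]
        congr 1
        unfold w
        rw [← ENNReal.ofReal_mul (by positivity)]
        congr 1
        rw [Real.mul_rpow hb0.le ht.1.le, ← mul_assoc, ← Real.rpow_add hb0]
        ring_nf
        simp
      · have ht2 : b * t ∉ Ioo 0 (b * T) := by
          intro h
          apply ht
          constructor
          · by_contra hc
            push Not at hc
            have := h.1
            nlinarith
          · exact lt_of_mul_lt_mul_left h.2 hb0.le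
        rw [indicator_of_notMem ht, hH, indicator_of_notMem ht2, mul_zero]
    · exact ENNReal.ofReal_ne_top
  have h2 : ∫⁻ t, H (b * t) = ENNReal.ofReal b⁻¹ * ∫⁻ s, H s := by
    have h3 := Real.smul_map_volume_mul_left hb0.ne'
    conv_rhs => rw [← h3]
    rw [lintegral_smul_measure, smul_eq_mul, ← mul_assoc, ← ENNReal.ofReal_mul (by positivity),
      abs_of_pos hb0, inv_mul_cancel₀ hb0.ne', ENNReal.ofReal_one, one_mul]
    exact (lintegral_map_equiv H (Homeomorph.mulLeft₀ b hb0.ne').toMeasurableEquiv).symm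
  have h4 : ∫⁻ s, H s ≤ Pot T ν z + w N T * ENNReal.ofReal (b * T) * ν univ := by
    rw [hH, lintegral_indicator measurableSet_Ioo]
    have hsub : Ioo 0 (b * T) ⊆ Ioo 0 T ∪ Ico T (b * T) := by
      intro s hs
      by_cases h : s < T
      · exact Or.inl ⟨hs.1, h⟩
      · exact Or.inr ⟨not_lt.1 h, hs.2⟩
    refine (lintegral_mono_set hsub).trans ?_
    refine (lintegral_union_le _ _ _).trans ?_
    refine add_le_add le_rfl ?_
    calc ∫⁻ s in Ico T (b * T), w N s * ν (ball z (√s))
        ≤ ∫⁻ s in Ico T (b * T), w N T * ν univ := by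
          refine setLIntegral_mono measurable_const fun s hs => ?_
          exact mul_le_mul' (w_anti hT hs.1) (measure_mono (subset_univ _))
      _ = w N T * ν univ * volume (Ico T (b * T)) := by rw [setLIntegral_const]
      _ ≤ w N T * ν univ * ENNReal.ofReal (b * T) := by
          gcongr
          rw [Real.volume_Ico]
          exact ENNReal.ofReal_le_ofReal (by linarith)
      _ = _ := by ring
  rw [h1, h2, ← mul_assoc, ← ENNReal.ofReal_mul (by positivity)]
  have h5 : b ^ ((N : ℝ) / 2) * b⁻¹ = b ^ ((N : ℝ) / 2 - 1) := by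
    rw [Real.rpow_sub hb0, Real.rpow_one]; rfl
  rw [h5]
  gcongr

end Pool.Agent.R216.VPD
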