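import Pool.Agent.R216.VPD.Pot

/-! Whitney averaging estimates. -/

namespace Pool.Agent.R216.VPD

open MeasureTheory Set Metric Filter Topology
open scoped ENNReal

variable {N : ℕ}

/-- near part: average over a ball -/
theorem near_avg {x x₀ : E N} {d η : ℝ} (hd : 0 < d) (hη : 0 < η) (hη1 : η ≤ 1)
    (hx : dist x x₀ ≤ d) (f : Measure (E N)) [IsFiniteMeasure f] :
    ∫⁻ z in ball x (η * d), Pot (16 * d ^ 2) f z
      ≤ f (closedBall x₀ (6 * d)) * (om N * ENNReal.ofReal (16 * d ^ 2)) := by
  set f' := f.restrict (closedBall x₀ (6 * d)) with hf'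
  have h1 : ∫⁻ z in ball x (η * d), Pot (16 * d ^ 2) f z
      ≤ ∫⁻ z in ball x (η * d), Pot (16 * d ^ 2) f' z := by
    refine setLIntegral_mono' measurableSet_ball fun z hz => ?_
    unfold Pot
    refine setLIntegral_mono' measurableSet_Ioo fun t ht => ?_
    refine mul_le_mul' le_rfl ?_
    rw [hf', Measure.restrict_apply measurableSet_ball]
    refine measure_mono fun y hy => ⟨hy, ?_⟩
    rw [mem_ball] at hy hz
    rw [mem_closedBall]
    have h2 : √t ≤ 4 * d := by
      rw [show (4 * d) = √(16 * d ^ 2) by
        rw [show 16 * d ^ 2 = (4 * d) ^ 2 by ring, Real.sqrt_sq (by positivity)]]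
      exact Real.sqrt_le_sqrt ht.2.le
    have h3 : η * d ≤ d := by nlinarith
    have h4 := dist_triangle y z x₀
    have h5 := dist_triangle z x x₀
    linarith
  refine h1.trans ?_
  refine (lintegral_mono_set (subset_univ _)).trans ?_
  rw [Measure.restrict_univ, lintegral_Pot, hf', Measure.restrict_apply_univ]

/-- far part -/
theorem far_part {x₀ z : E N} {T d r₀ : ℝ} (hT : 0 < T) (hd : 0 < d) (hr₀ : 0 < r₀)
    (hz : dist z x₀ ≤ 2 * d) (σ f : Measure (E N)) [IsFiniteMeasure σ] [IsFiniteMeasure f]
    {ε : ℝ≥0∞}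
    (hgood : ∀ r, 0 < r → r ≤ r₀ → f (closedBall x₀ r) ≤ ε * σ (closedBall x₀ (2 * r))) :
    Pot T f z ≤ Pot (16 * d ^ 2) f z
      + ε * (ENNReal.ofReal (16 ^ ((N : ℝ) / 2 - 1))
        * (Pot T σ z + w N T * ENNReal.ofReal (16 * T) * σ univ))
      + w N ((2 * r₀ / 3) ^ 2) * f univ * ENNReal.ofReal T := by
  have hpt : ∀ t ∈ Ioo 0 T, w N t * f (ball z (√t))
      ≤ (Ioo 0 (16 * d ^ 2)).indicator (fun t => w N t * f (ball z (√t))) t
        + ε * (w N t * σ (ball z (√(16 * t)))) + w N ((2 * r₀ / 3) ^ 2) * f univ := by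
    intro t ht
    by_cases h1 : t < 16 * d ^ 2
    · rw [indicator_of_mem (show t ∈ Ioo 0 (16 * d ^ 2) from ⟨ht.1, h1⟩)]
      rw [add_assoc]
      exact le_self_add
    · push Not at h1
      by_cases h2 : t ≤ (2 * r₀ / 3) ^ 2
      · have hs4 : 4 * d ≤ √t := by
          rw [show (4 * d) = √(16 * d ^ 2) by
            rw [show 16 * d ^ 2 = (4 * d) ^ 2 by ring, Real.sqrt_sq (by positivity)]]
          exact Real.sqrt_le_sqrt h1
        have hs5 : √t ≤ 2 * r₀ / 3 := by
          rw [← Real.sqrt_sq (show 0 ≤ 2 * r₀ / 3 by positivity)]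
          exact Real.sqrt_le_sqrt h2
        have hs0 : 0 < √t := Real.sqrt_pos.2 ht.1
        have hs16 : √(16 * t) = 4 * √t := by
          rw [Real.sqrt_mul (by norm_num)]
          congr 1
          rw [show (16 : ℝ) = 4 ^ 2 by norm_num, Real.sqrt_sq (by norm_num)]
        have h3 : f (ball z (√t)) ≤ ε * σ (ball z (√(16 * t))) := by
          calc f (ball z (√t)) ≤ f (closedBall x₀ (3 / 2 * √t)) := by
                refine measure_mono fun y hy => ?_
                rw [mem_ball] at hy
                rw [mem_closedBall]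
                linarith [dist_triangle y z x₀]
            _ ≤ ε * σ (closedBall x₀ (2 * (3 / 2 * √t))) := by
                refine hgood _ (by positivity) ?_
                linarith
            _ ≤ _ := by
                refine mul_le_mul' le_rfl (measure_mono fun y hy => ?_)
                rw [mem_closedBall] at hy
                rw [mem_ball, hs16]
                have := dist_triangle y x₀ z
                rw [dist_comm x₀ z] at this
                linarith
        calc w N t * f (ball z (√t)) ≤ w N t * (ε * σ (ball z (√(16 * t)))) :=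
              mul_le_mul' le_rfl h3
          _ = ε * (w N t * σ (ball z (√(16 * t)))) := by ring
          _ ≤ (Ioo 0 (16 * d ^ 2)).indicator (fun t => w N t * f (ball z (√t))) t
              + ε * (w N t * σ (ball z (√(16 * t)))) := le_add_self
          _ ≤ _ := le_self_add
      · push Not at h2
        refine le_trans ?_ le_add_self
        exact mul_le_mul' (w_anti (by positivity) h2.le) (measure_mono (subset_univ _))
  have hm1 : Measurable (fun t => w N t * f (ball z (√t))) := by
    refine measurable_w.mul ?_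
    have hmono : Monotone (fun t : ℝ => f (ball z (√t))) := fun a b hab =>
      measure_mono (ball_subset_ball (Real.sqrt_le_sqrt hab))
    exact hmono.measurable
  have hm2 : Measurable (fun t => w N t * σ (ball z (√(16 * t)))) := by
    refine measurable_w.mul ?_
    have hmono : Monotone (fun t : ℝ => σ (ball z (√(16 * t)))) := fun a b hab =>
      measure_mono (ball_subset_ball (Real.sqrt_le_sqrt (by linarith)))
    exact hmono.measurable
  calc Pot T f z ≤ ∫⁻ t in Ioo 0 T,
        ((Ioo 0 (16 * d ^ 2)).indicator (fun t => w N t * f (ball z (√t))) t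
        + ε * (w N t * σ (ball z (√(16 * t)))) + w N ((2 * r₀ / 3) ^ 2) * f univ) :=
        setLIntegral_mono' measurableSet_Ioo hpt
    _ = (∫⁻ t in Ioo 0 T, (Ioo 0 (16 * d ^ 2)).indicator (fun t => w N t * f (ball z (√t))) t)
        + ε * (∫⁻ t in Ioo 0 T, w N t * σ (ball z (√(16 * t))))
        + w N ((2 * r₀ / 3) ^ 2) * f univ * ENNReal.ofReal T := by
        rw [lintegral_add_right _ measurable_const,
          lintegral_add_left (hm1.indicator measurableSet_Ioo), lintegral_const_mul _ hm2,
          setLIntegral_const]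
        simp
    _ ≤ _ := by
        refine add_le_add (add_le_add ?_ ?_) le_rfl
        · refine (lintegral_mono_set (subset_univ _)).trans ?_
          rw [Measure.restrict_univ, lintegral_indicator measurableSet_Ioo]
          rfl
        · exact mul_le_mul' le_rfl (Pot_scale hT (by norm_num) σ z)

/-- mass is controlled by the potential -/
theorem mass_le {x₀ z : E N} {T d : ℝ} (hd : 0 < d) (hT : (28 * d) ^ 2 ≤ T)
    (hz : dist z x₀ ≤ 2 * d) (σ : Measure (E N)) :
    ENNReal.ofReal (588 * d ^ 2) * w N ((28 * d) ^ 2) * σ (closedBall x₀ (12 * d))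
      ≤ Pot T σ z := by
  unfold Pot
  calc ENNReal.ofReal (588 * d ^ 2) * w N ((28 * d) ^ 2) * σ (closedBall x₀ (12 * d))
      = ∫⁻ t in Ioo ((14 * d) ^ 2) ((28 * d) ^ 2),
          w N ((28 * d) ^ 2) * σ (closedBall x₀ (12 * d)) := by
        rw [setLIntegral_const, Real.volume_Ioo]
        rw [show (28 * d) ^ 2 - (14 * d) ^ 2 = 588 * d ^ 2 by ring]
        ring
    _ ≤ ∫⁻ t in Ioo ((14 * d) ^ 2) ((28 * d) ^ 2), w N t * σ (ball z (√t)) := by
        refine setLIntegral_mono' measurableSet_Ioo fun t ht => ?_
        have ht0 : 0 < t := lt_trans (by positivity) ht.1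
        refine mul_le_mul' (w_anti ht0 ht.2.le) (measure_mono fun y hy => ?_)
        rw [mem_closedBall] at hy
        rw [mem_ball]
        have h1 : 14 * d < √t := by
          rw [Real.lt_sqrt (by positivity)]; exact ht.1
        have := dist_triangle y x₀ z
        rw [dist_comm x₀ z] at this
        linarith
    _ ≤ _ := lintegral_mono_set (Ioo_subset_Ioo (by positivity) hT)

/-- comparison of potentials at nearby points -/
theorem compare {K₀ : Set (E N)} {x z : E N} {T d η : ℝ} (hT : 0 < T)
    (hη : 0 < η) (hdist : ∀ y ∈ K₀, d ≤ dist x y) (hz : dist z x ≤ η * d)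
    (σ : Measure (E N)) [IsFiniteMeasure σ] (hK : MeasurableSet K₀) :
    Pot T (σ.restrict K₀) x ≤ ENNReal.ofReal (((1 + η) ^ 2) ^ ((N : ℝ) / 2 - 1))
        * (Pot T (σ.restrict K₀) z
          + w N T * ENNReal.ofReal ((1 + η) ^ 2 * T) * (σ.restrict K₀) univ) := by
  refine le_trans ?_ (Pot_scale hT (by nlinarith) (σ.restrict K₀) z)
  unfold Pot
  refine setLIntegral_mono' measurableSet_Ioo fun t ht => ?_
  refine mul_le_mul' le_rfl ?_
  rw [Measure.restrict_apply measurableSet_ball, Measure.restrict_apply measurableSet_ball]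
  refine measure_mono fun y hy => ⟨?_, hy.2⟩
  have h1 : dist y x < √t := hy.1
  have h2 := hdist y hy.2
  rw [mem_ball, Real.sqrt_mul (by positivity), Real.sqrt_sq (by positivity)]
  have h3 := dist_triangle y x z
  rw [dist_comm x z] at h3
  rw [dist_comm x y] at h2
  nlinarith

end Pool.Agent.R216.VPD
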